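import Pool.Agent.MP_b5e119_nt.G38.Defs

namespace Pool.Agent.G38

open Finset Filter Topology Pool.Agent.G60 Pool.Agent.G42 Pool.Agent.G55 DirichletCharacter
open Pool.Agent.G27 (nu re EX UN)

theorem anc_lev {N M : ℕ} (h : N ∣ M) (χ : Ch N) {n : ℕ} (hn : n.Coprime M) :
    changeLevel h χ (n : ZMod M) = χ (n : ZMod N) := by
  have := changeLevel_eq_cast_of_dvd' χ h (a := (n : ℤ)) (Nat.isCoprime_iff_coprime.2 hn)
  rwa [Int.cast_natCast, Int.cast_natCast] at this

theorem anc_eq {L L' : ℕ} [NeZero L] [NeZero L'] {χ : Ch L} {χ' : Ch L'}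
    (h : ∀ n : ℕ, n.Coprime (L * L') → χ (n : ZMod L) = χ' (n : ZMod L')) :
    χ.conductor ∣ L' ∧ ∀ n : ℕ, n.Coprime L' → re χ' n = re χ.primitiveCharacter n := by
  have e : changeLevel (dvd_mul_right L L') χ = changeLevel (dvd_mul_left L' L) χ' := by
    refine MulChar.ext fun a => ?_
    have hn := ZMod.val_coe_unit_coprime a
    rw [← ZMod.natCast_zmod_val (a : ZMod (L * L')), anc_lev _ _ hn, anc_lev _ _ hn]
    exact h _ hn
  have d : χ.conductor ∣ L' := by
    rw [← conductor_changeLevel χ (dvd_mul_right L L'), e, conductor_changeLevel]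
    exact χ'.conductor_dvd_level
  have k : changeLevel d χ.primitiveCharacter = χ' := by
    refine changeLevel_injective (dvd_mul_left L' L) ?_
    rw [← e, ← changeLevel_trans]
    conv_rhs => rw [← changeLevel_primitiveCharacter χ, ← changeLevel_trans]
  refine ⟨d, fun n hn => ?_⟩
  have := anc_lev d χ.primitiveCharacter hn
  rw [k] at this
  simp only [re, this]

theorem anc_row (hR : REPA_s) : ANC_s := by
  obtain ⟨η, hη, N₁, hR⟩ := hR
  refine ⟨η, hη, N₁ ^ 2 + 1, fun N M _ hN hd h2 χ σ hχ hσ hE =>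
    ⟨χ.conductor, χ.primitiveCharacter, ?_, fun M' _ hd' h2' χ' σ' hχ' hσ' hE' => ?_⟩⟩
  · rw [← changeLevel_eq_one_iff χ.conductor_dvd_level, map_pow, changeLevel_primitiveCharacter, hχ]
  have big : ∀ L : ℕ, N ≤ L ^ 2 → N₁ ≤ L := fun L h =>
    (Nat.pow_le_pow_iff_left (n := 2) (by norm_num)).1 (by omega)
  have cmp : ∀ L L' : ℕ, 0 < L → N ≤ L ^ 2 → L' ∣ N → L' ^ 100 ≤ L ^ 201 := fun L L' h0 h h' => by
    refine (Nat.pow_le_pow_left ((Nat.le_of_dvd (by omega) h').trans h) 100).trans ?_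
    rw [← pow_mul]
    exact Nat.pow_le_pow_right h0 (by norm_num)
  rcases le_total M M' with hle | hle
  · exact anc_eq (hR M M' (big _ h2) hle (cmp _ _ (NeZero.pos M) h2 hd') χ χ' σ σ' hχ hχ' hσ hσ'
      hE hE')
  · exact anc_eq fun n hn => (hR M' M (big _ h2') hle (cmp _ _ (NeZero.pos M') h2' hd) χ' χ σ' σ
      hχ' hχ hσ' hσ hE' hE n (mul_comm M M' ▸ hn)).symm

end Pool.Agent.G38
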