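import Pool.Agent.MP_b5e119_nt.G38.Defs
import Pool.Agent.MP_b5e119_nt.G27.SIEGG

/-! Row BIG of campaign h38o: the large split primes against the value at `1`. -/

namespace Pool.Agent.G38

open Finset Filter Topology Pool.Agent.G60 Pool.Agent.G42 Pool.Agent.G55
open Pool.Agent.G27 (re)

theorem big_log (N : ℕ) (hN : 0 < N) : (Nat.log 2 N : ℝ) ≤ 15 * (N : ℝ) ^ (0.1 : ℝ) := by
  have N0 : (0 : ℝ) < N := by exact_mod_cast hN
  have h1 : (2 : ℝ) ^ Nat.log 2 N ≤ N := by exact_mod_cast Nat.pow_log_le_self 2 hN.ne'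
  have h2 := Real.log_le_log (by positivity) h1
  rw [Real.log_pow] at h2
  have h3 := Real.log_le_rpow_div N0.le (by norm_num : (0 : ℝ) < 0.1)
  have h4 := Real.log_two_gt_d9
  have h5 : (0 : ℝ) ≤ Nat.log 2 N := Nat.cast_nonneg _
  have h6 : (N : ℝ) ^ (0.1 : ℝ) / 0.1 = 10 * (N : ℝ) ^ (0.1 : ℝ) := by ring
  nlinarith

theorem big_row (hRAS : RASX_s) (hLIFT : LIFT_s) (hZ : ZLOW_s) (hPHI : G27.PHI_s) : BIG_s := by
  obtain ⟨κ, hκ, N₁, hR⟩ := hRAS
  obtain ⟨k, k0, k1, k2⟩ : ∃ k : ℝ, 0 < k ∧ k ≤ κ ∧ k ≤ 0.1 :=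
    ⟨min κ 0.1, by positivity, min_le_left _ _, min_le_right _ _⟩
  obtain ⟨c, hc, hS⟩ := G27.siegg_norm hPHI k k0
  obtain ⟨C, hC, hP⟩ := hPHI
  obtain ⟨N₂, h₂⟩ := eventually_atTop.1 (((tendsto_rpow_atTop (by norm_num : (0 : ℝ) < 0.003)).comp
    tendsto_natCast_atTop_atTop).eventually_ge_atTop 2)
  refine ⟨2 + 2 / c + 225 * C / c, N₁ + N₂ + 3, by positivity, fun N _ χ hN h2 h1 => ?_⟩
  obtain ⟨L, eL, tL⟩ := G27.siegg_L h2 h1
  have sL := hS N χ h2 h1
  rw [eL] at sL ⊢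
  obtain ⟨χ', g2, g1, ge⟩ := hLIFT N χ h2 h1
  have N3 : (3 : ℝ) ≤ N := by exact_mod_cast (by omega : 3 ≤ N)
  have N0 : (0 : ℝ) < N := by linarith
  have N1 : (1 : ℝ) ≤ N := by linarith
  have l1 : 1 ≤ Real.log N := by
    rw [Real.le_log_iff_exp_le N0]
    linarith [Real.exp_one_lt_d9]
  have a1 : 1 ≤ (N : ℝ) ^ (0.33 : ℝ) := Real.one_le_rpow N1 (by norm_num)
  have y1 : (N : ℝ) ^ (0.33 : ℝ) ≤ YN N := by
    have b1 : (N : ℝ) ^ (0.333 : ℝ) < YN N + 1 := Nat.lt_floor_add_one _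
    have b2 : (N : ℝ) ^ (0.333 : ℝ) = (N : ℝ) ^ (0.33 : ℝ) * (N : ℝ) ^ (0.003 : ℝ) := by
      rw [← Real.rpow_add N0]
      norm_num
    have b3 : 2 ≤ (N : ℝ) ^ (0.003 : ℝ) := h₂ N (by omega)
    nlinarith
  have y2 : (YN N : ℝ) ≤ N := (Nat.floor_le (by positivity)).trans
    ((Real.rpow_le_rpow_of_exponent_le N1 (by norm_num)).trans (Real.rpow_one _).le)
  have y3 : YN N ≤ N := by exact_mod_cast y2
  have y0 : (0 : ℝ) < YN N := by linarith
  have z := hZ N χ (YN N) h2 y3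
  have r1 := hR N (by omega) χ h2 h1 L tL (YN N) N y1 y3 le_rfl
  have NN : N ≤ N ^ 2 := Nat.le_self_pow two_ne_zero N
  have eZ : ∀ x, ZX χ' x = ZX χ x := fun x => by simp only [ZX, rx, ge]
  have r2 := hR (N ^ 2) (by omega) χ' g2 g1 L (by simpa only [ge] using tL) N (N ^ 2) (by
    rw [Nat.cast_pow, ← Real.rpow_natCast, ← Real.rpow_mul N0.le]
    exact (Real.rpow_le_rpow_of_exponent_le N1 (by norm_num)).trans (Real.rpow_one _).le) NN le_rfl
  have e1 : ((N ^ 2 : ℕ) : ℝ) / N = N := by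
    rw [Nat.cast_pow, sq, mul_div_cancel_right₀ _ N0.ne']
  rw [eZ, eZ, e1] at r2
  obtain ⟨s, hs⟩ : ∃ s : ℝ, s = (N : ℝ) ^ k := ⟨_, rfl⟩
  have s0 : 0 < s := by rw [hs]; positivity
  have L0 := abs_nonneg L
  have q1 : (N : ℝ) ^ (-κ) ≤ 1 / s := by
    rw [hs, one_div, ← Real.rpow_neg N0.le]
    exact Real.rpow_le_rpow_of_exponent_le N1 (by linarith)
  have q2 : ((N ^ 2 : ℕ) : ℝ) ^ (-κ) ≤ (N : ℝ) ^ (-κ) :=
    Real.rpow_le_rpow_of_nonpos N0 (by exact_mod_cast NN) (by linarith)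
  rw [← hs] at sL
  have q3 : 1 / s ≤ 1 / c * (|L| * Real.log N) := by
    rw [one_div_mul_eq_div, le_div_iff₀ hc, one_div_mul_eq_div]
    exact sL.trans (le_mul_of_one_le_right L0 l1)
  have q4 : L * Real.log ((N : ℝ) / YN N) ≤ |L| * Real.log N :=
    mul_le_mul (le_abs_self _) (Real.log_le_log (by positivity) (div_le_self N0.le (by linarith)))
      (Real.log_nonneg ((one_le_div y0).2 y2)) L0
  have q5 : L * Real.log N ≤ |L| * Real.log N :=
    mul_le_mul_of_nonneg_right (le_abs_self _) (by linarith)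
  have pR : (0 : ℝ) < N.totient := by exact_mod_cast Nat.totient_pos.2 (NeZero.pos N)
  obtain ⟨W, hW⟩ : ∃ W : ℝ, W = |L| * Real.log N := ⟨_, rfl⟩
  rw [mul_assoc ((N.totient : ℝ) / N), ← hW]
  rw [← hW] at q3 q4 q5
  obtain ⟨S, hS'⟩ : ∃ S : ℝ, S = ∑ p ∈ Ioc (YN N) N with (p.Prime ∧ re χ p = 1), 1 / (p : ℝ) :=
    ⟨_, rfl⟩
  rw [← hS'] at z ⊢
  have t1 : S ≤ (2 + 2 / c) * ((N.totient : ℝ) / N * W) := by
    have b1 : S * N / N.totient ≤ (2 + 2 / c) * W := by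
      have := (abs_le.1 r1).2
      have := (abs_le.1 r2).2
      have : (2 + 2 / c) * W = 2 * W + 2 * (1 / c * W) := by ring
      linarith
    rw [div_le_iff₀ pR, ← le_div_iff₀ N0] at b1
    exact b1.trans (le_of_eq (by ring))
  have t2 : (Nat.log 2 N : ℝ) / YN N ≤ 225 * C / c * ((N.totient : ℝ) / N * W) := by
    have b1 := big_log N (by omega)
    obtain ⟨t, ht⟩ : ∃ t : ℝ, t = (N : ℝ) ^ (0.1 : ℝ) := ⟨_, rfl⟩
    rw [← ht] at b1
    have t0 : 0 < t := by rw [ht]; positivity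
    have b2 : s ≤ t := by
      rw [hs, ht]
      exact Real.rpow_le_rpow_of_exponent_le N1 k2
    have b3 : t * t * t ≤ YN N := by
      refine le_trans ?_ y1
      rw [ht, ← Real.rpow_add N0, ← Real.rpow_add N0]
      exact Real.rpow_le_rpow_of_exponent_le N1 (by norm_num)
    have b4 : (1 : ℝ) ≤ Nat.log 2 N := by
      exact_mod_cast Nat.log_pos (by norm_num) (by omega : 2 ≤ N)
    have b5 : (N : ℝ) ≤ C * N.totient * (15 * t) := (hP N (by omega)).trans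
      (mul_le_mul_of_nonneg_left (((Real.rpow_le_rpow_of_exponent_le b4 (by norm_num)).trans
        (Real.rpow_one _).le).trans b1) (by positivity))
    have b6 : 1 / (C * (15 * t)) ≤ (N.totient : ℝ) / N := by
      rw [div_le_div_iff₀ (by positivity) N0]
      linarith
    have b7 : c / t ≤ W := by
      have := mul_le_mul_of_nonneg_left ((one_div_le_one_div_of_le s0 b2).trans q3) hc.le
      rwa [← mul_assoc, mul_one_div, mul_one_div_cancel hc.ne', one_mul] at this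
    calc _ ≤ 15 * t / (t * t * t) := div_le_div₀ (by positivity) b1 (by positivity) b3
      _ = 225 * C / c * (1 / (C * (15 * t)) * (c / t)) := by
          field_simp
          norm_num
      _ ≤ _ := mul_le_mul_of_nonneg_left (mul_le_mul b6 b7 (by positivity) (by positivity))
          (by positivity)
  linarith

end Pool.Agent.G38
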