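import Pool.Agent.MP_b5e119_nt.G38.Defs

namespace Pool.Agent.G38

open Finset Filter Topology Pool.Agent.G60 Pool.Agent.G42 Pool.Agent.G55
open Pool.Agent.G27 (nu re EX UN)

theorem bon_mul (N d : ℕ) (A : Finset ℕ) (hA : A ⊆ Icc 1 N) (hd : 0 < d) :
    (#{a ∈ A | d ∣ a} : ℝ) ≤ N / d := by
  have h1 : #{a ∈ A | d ∣ a} ≤ N / d := by
    rw [← Nat.Ioc_filter_dvd_card_eq_div N d]
    refine card_le_card fun a ha => ?_
    rw [mem_filter] at ha ⊢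
    have := mem_Icc.mp (hA ha.1)
    exact ⟨mem_Ioc.mpr ⟨by omega, this.2⟩, ha.2⟩
  calc (#{a ∈ A | d ∣ a} : ℝ) ≤ ((N / d : ℕ) : ℝ) := by exact_mod_cast h1
    _ ≤ N / d := Nat.cast_div_le

theorem bon_sub (S : Finset ℕ) (w : ℕ → ℝ) (x : ℝ) (hx : 0 ≤ x) (hw : ∀ p ∈ S, w p ≤ x)
    (hS : x < ∑ p ∈ S, w p) : ∃ T ⊆ S, x < ∑ p ∈ T, w p ∧ ∑ p ∈ T, w p ≤ 2 * x := by
  classical
  induction S using Finset.induction_on with
  | empty => simp at hS; linarith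
  | insert q S hq ih =>
    by_cases h : x < ∑ p ∈ S, w p
    · obtain ⟨T, hT, h1⟩ := ih (fun p hp => hw p (mem_insert_of_mem hp)) h
      exact ⟨T, hT.trans (subset_insert _ _), h1⟩
    · refine ⟨insert q S, Subset.refl _, hS, ?_⟩
      rw [sum_insert hq]
      have := hw q (mem_insert_self _ _)
      linarith [not_lt.mp h]

theorem bon_ind (N : ℕ) (A : Finset ℕ) (R : ℕ → ℕ) (κ : ℝ) (hA : A ⊆ Icc 1 N) (T : Finset ℕ)
    (h1 : ∀ p ∈ T, 0 < R p ∧ κ * N / R p ≤ #{a ∈ A | R p ∣ a})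
    (h2 : ∀ p ∈ T, ∀ p' ∈ T, p ≠ p' → (R p).Coprime (R p')) :
    (κ - ∑ p ∈ T, 1 / (R p : ℝ)) * (∑ p ∈ T, 1 / (R p : ℝ)) * N ≤
      #{a ∈ A | ∃ p ∈ T, R p ∣ a} := by
  classical
  induction T using Finset.induction_on with
  | empty => simp
  | insert q T hq ih =>
    have ih' := ih (fun p hp => h1 p (mem_insert_of_mem hp))
      (fun p hp p' hp' => h2 p (mem_insert_of_mem hp) p' (mem_insert_of_mem hp'))
    obtain ⟨hq0, hq1⟩ := h1 q (mem_insert_self _ _)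
    have hU : {a ∈ A | ∃ p ∈ insert q T, R p ∣ a} =
        {a ∈ A | R q ∣ a} ∪ {a ∈ A | ∃ p ∈ T, R p ∣ a} := by
      ext a
      simp only [mem_filter, mem_union, mem_insert, exists_eq_or_imp]
      tauto
    have hI : {a ∈ A | R q ∣ a} ∩ {a ∈ A | ∃ p ∈ T, R p ∣ a} ⊆
        T.biUnion fun p => {a ∈ A | R q * R p ∣ a} := by
      intro a ha
      simp only [mem_inter, mem_filter, mem_biUnion] at ha ⊢
      obtain ⟨⟨ha, h3⟩, -, p, hp, h4⟩ := ha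
      refine ⟨p, hp, ha, Nat.Coprime.mul_dvd_of_dvd_of_dvd ?_ h3 h4⟩
      exact h2 q (mem_insert_self _ _) p (mem_insert_of_mem hp) (fun h => hq (h ▸ hp))
    have hI2 : (#({a ∈ A | R q ∣ a} ∩ {a ∈ A | ∃ p ∈ T, R p ∣ a}) : ℝ) ≤
        1 / (R q : ℝ) * (∑ p ∈ T, 1 / (R p : ℝ)) * N := by
      calc (#({a ∈ A | R q ∣ a} ∩ {a ∈ A | ∃ p ∈ T, R p ∣ a}) : ℝ)
          ≤ ((∑ p ∈ T, #{a ∈ A | R q * R p ∣ a} : ℕ) : ℝ) := by
            exact_mod_cast (card_le_card hI).trans card_biUnion_le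
        _ = ∑ p ∈ T, (#{a ∈ A | R q * R p ∣ a} : ℝ) := by push_cast; rfl
        _ ≤ ∑ p ∈ T, 1 / (R q : ℝ) * (1 / (R p : ℝ)) * N := by
            refine sum_le_sum fun p hp => ?_
            have hp0 := (h1 p (mem_insert_of_mem hp)).1
            refine (bon_mul N _ A hA (Nat.mul_pos hq0 hp0)).trans (le_of_eq ?_)
            push_cast
            field_simp
        _ = _ := by rw [mul_sum, sum_mul]
    have hC := card_union_add_card_inter {a ∈ A | R q ∣ a} {a ∈ A | ∃ p ∈ T, R p ∣ a}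
    have hC' : (#({a ∈ A | R q ∣ a} ∪ {a ∈ A | ∃ p ∈ T, R p ∣ a}) : ℝ) +
        #({a ∈ A | R q ∣ a} ∩ {a ∈ A | ∃ p ∈ T, R p ∣ a}) =
        #{a ∈ A | R q ∣ a} + #{a ∈ A | ∃ p ∈ T, R p ∣ a} := by exact_mod_cast hC
    rw [hU, sum_insert hq]
    have hm : 0 ≤ ∑ p ∈ T, 1 / (R p : ℝ) := sum_nonneg fun p _ => by positivity
    have hw : 0 ≤ 1 / (R q : ℝ) := by positivity
    have hN : (0 : ℝ) ≤ N := Nat.cast_nonneg N
    have hq2 : κ * N / R q = κ * (1 / (R q : ℝ)) * N := by ring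
    rw [hq2] at hq1
    generalize (1 / (R q : ℝ)) = w at *
    generalize (∑ p ∈ T, 1 / (R p : ℝ)) = m at *
    have h5 : 0 ≤ w * m * N := by positivity
    have h6 : 0 ≤ w * w * N := by positivity
    nlinarith

theorem bon_row : BON_s := by
  intro N A S R κ hκ hκ1 hA h1 h2
  have hN : (0 : ℝ) ≤ N := Nat.cast_nonneg N
  have hm : 0 ≤ ∑ p ∈ S, 1 / (R p : ℝ) := sum_nonneg fun p _ => by positivity
  have hmin1 : min 1 (∑ p ∈ S, 1 / (R p : ℝ)) ≤ 1 := min_le_left _ _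
  have hmin2 : min 1 (∑ p ∈ S, 1 / (R p : ℝ)) ≤ ∑ p ∈ S, 1 / (R p : ℝ) := min_le_right _ _
  have hmin0 : 0 ≤ min 1 (∑ p ∈ S, 1 / (R p : ℝ)) := le_min zero_le_one hm
  have key : ∀ T ⊆ S, (κ - ∑ p ∈ T, 1 / (R p : ℝ)) * (∑ p ∈ T, 1 / (R p : ℝ)) * N ≤ #A := by
    intro T hT
    refine (bon_ind N A R κ hA T (fun p hp => h1 p (hT hp))
      (fun p hp p' hp' => h2 p (hT hp) p' (hT hp'))).trans ?_
    exact_mod_cast card_le_card (filter_subset _ _)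
  by_cases hs : ∑ p ∈ S, 1 / (R p : ℝ) ≤ κ / 2
  · refine le_trans (mul_le_mul_of_nonneg_right ?_ hN) (key S (Subset.refl _))
    refine mul_le_mul ?_ hmin2 hmin0 (by linarith)
    nlinarith
  · have hfin : κ ^ 2 / 8 * min 1 (∑ p ∈ S, 1 / (R p : ℝ)) ≤ κ ^ 2 / 8 :=
      mul_le_of_le_one_right (by positivity) hmin1
    refine le_trans (mul_le_mul_of_nonneg_right hfin hN) ?_
    by_cases hw : ∀ p ∈ S, 1 / (R p : ℝ) ≤ κ / 4
    · obtain ⟨T, hT, h3, h4⟩ := bon_sub S (fun p => 1 / (R p : ℝ)) (κ / 4) (by positivity) hw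
        (by linarith [not_le.mp hs])
      refine le_trans (mul_le_mul_of_nonneg_right ?_ hN) (key T hT)
      nlinarith
    · simp only [not_forall, not_le] at hw
      obtain ⟨p, hp, h3⟩ := hw
      obtain ⟨_, h4⟩ := h1 p hp
      have h5 : (#{a ∈ A | R p ∣ a} : ℝ) ≤ #A := by
        exact_mod_cast card_le_card (filter_subset _ _)
      have h6 : κ * N / R p = κ * (1 / (R p : ℝ)) * N := by ring
      rw [h6] at h4
      refine le_trans (mul_le_mul_of_nonneg_right ?_ hN) (h4.trans h5)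
      nlinarith

end Pool.Agent.G38
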