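import Pool.Agent.MP_b5e119_nt.G38.Defs
import Pool.Agent.MP_b5e119_nt.G55.DIRC

namespace Pool.Agent.G38

open Finset Filter Topology Pool.Agent.G60 Pool.Agent.G42 Pool.Agent.G55
open Pool.Agent.G27 (nu re EX UN)

theorem dirp_card {M : ℕ} (χ : Ch M) (e e' : ℤ) {c : ℕ} (hc : 0 < c) :
    #(dircG χ e e' c) ≤ cV M c e e' := by
  classical
  unfold cV
  refine card_le_card_of_injOn (fun u => c * u) ?_ ?_
  · intro u hu
    simp only [mem_coe, dircG, mem_filter, mem_Icc] at hu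
    obtain ⟨⟨h2, h3⟩, -, h5, h6, h7⟩ := hu
    simp only [coe_filter, Set.mem_ofPred_eq, mem_Icc]
    refine ⟨⟨Nat.mul_pos hc h2, ?_⟩, h5, Dvd.intro _ rfl, h6, h7⟩
    rw [mul_comm]
    exact (Nat.le_div_iff_mul_le hc).1 h3
  · intro u _ u' _ h
    exact Nat.eq_of_mul_eq_mul_left hc h

theorem dirp_row (hA : DIRA_s) (hB : DIRB_s) (hU : BADU_s) (hN : NSL_s) : DIRP_s := by
  obtain ⟨κ, N₁, hκ, hA⟩ := hA
  obtain ⟨N₂, hB⟩ := hB (κ / 8) (by positivity)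
  obtain ⟨K, N₃, hK, hU⟩ := hU (κ / 8) 5 (by positivity)
  refine ⟨κ / 8, K + 10, N₁ + N₂ + N₃ + 6, by positivity, by omega, ?_⟩
  intro M _ χ c e e' hM hχ hχ1 he he' hs hS' c3 c4 c5
  have hM1 : 1 ≤ M := by omega
  have hM' : (1 : ℝ) ≤ M := by exact_mod_cast hM1
  have hfl : ((⌊(M : ℝ) ^ (0.662 : ℝ)⌋₊ : ℕ) : ℝ) ≤ (M : ℝ) ^ (0.662 : ℝ) :=
    Nat.floor_le (by positivity)
  have hS1 := (dirc_mono χ (dirc_le (K := K + 10) hM1 (by omega) hfl)).trans hS'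
  have c1 := c3.pos
  have c6 : c.Coprime M := by
    by_contra h
    rw [G27.re_nonunit χ h] at c4
    omega
  have a1 := hA M χ c e' (by omega) hχ hχ1 he' c3 c4 c5
  have a2 := hB M χ c _ (by omega) c3 c6 c5 hfl
  have a3 := hU M χ ((M - 1) / c) (by omega) (dirc_big (by omega) c1 c5)
    ((Nat.div_le_self _ _).trans (by omega))
  have a4 := (dirc_cover hN χ e e' c hχ he' hs c3 c4 hM1).trans
    (Nat.add_le_add_right (Nat.add_le_add_right (dirp_card χ e e' c1) _) _)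
  have a5 : SL χ ((M - 1) / c / 2 ^ (Nat.log 2 M / K)) ≤ κ / 8 := by
    refine (dirc_mono χ ?_).trans hS'
    refine Nat.div_le_div ((Nat.div_le_self _ _).trans (by omega)) ?_ (by positivity)
    exact Nat.pow_le_pow_right two_pos (Nat.div_le_div_left (by omega) hK)
  have hc0 : (0 : ℝ) < c := by exact_mod_cast c1
  have a6 : (((M - 1) / c : ℕ) : ℝ) / M ≤ 1 / c := by
    rw [div_le_div_iff₀ (by linarith) hc0, one_mul]
    exact_mod_cast (Nat.div_mul_le_self _ _).trans (Nat.sub_le M 1)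
  set T : ℝ := M.totient * (1 / (c : ℝ)) with hT
  have hφ : (0 : ℝ) ≤ M.totient := Nat.cast_nonneg _
  have hT0 : 0 ≤ T := by positivity
  have b1 : κ * M.totient / c = κ * T := by rw [hT]; ring
  have b2 : (SL χ ⌊(M : ℝ) ^ (0.662 : ℝ)⌋₊ + κ / 8) * M.totient / c ≤ κ / 4 * T := by
    have : (SL χ ⌊(M : ℝ) ^ (0.662 : ℝ)⌋₊ + κ / 8) * M.totient / c =
        (SL χ ⌊(M : ℝ) ^ (0.662 : ℝ)⌋₊ + κ / 8) * T := by rw [hT]; ring
    rw [this]
    exact mul_le_mul_of_nonneg_right (by linarith) hT0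
  have b3 : (SL χ ((M - 1) / c / 2 ^ (Nat.log 2 M / K)) + κ / 8) * (((M - 1) / c : ℕ) : ℝ) *
      M.totient / M ≤ κ / 4 * T := by
    calc _ = (SL χ ((M - 1) / c / 2 ^ (Nat.log 2 M / K)) + κ / 8) *
          (M.totient * ((((M - 1) / c : ℕ) : ℝ) / M)) := by ring
      _ ≤ κ / 4 * (M.totient * ((((M - 1) / c : ℕ) : ℝ) / M)) :=
        mul_le_mul_of_nonneg_right (by linarith) (by positivity)
      _ ≤ κ / 4 * T := by rw [hT]; gcongr
  have b4 : κ / 8 * M.totient / c = κ / 8 * T := by rw [hT]; ring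
  have a4' := (Nat.cast_le (α := ℝ)).2 a4
  push_cast at a4'
  have b5 : 0 ≤ κ * T := by positivity
  linarith

end Pool.Agent.G38
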