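import Pool.Agent.MP_b5e119_nt.G55.Defs

/-! Statements of the rows of campaign h38o: the exact order of the count of sign patterns. -/

namespace Pool.Agent.G38

open Finset Filter Topology Pool.Agent.G60 Pool.Agent.G42 Pool.Agent.G55
open Pool.Agent.G27 (nu re EX UN)

noncomputable section

/-- Pairs whose first member is a multiple of `R`. -/
def cD (N R : ℕ) (e e' : ℤ) : ℕ := #{a ∈ Icc 1 (N - 1) | R ∣ a ∧ lam a = e ∧ lam (N - a) = e'}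

def cV (M R : ℕ) (e e' : ℤ) : ℕ :=
  #{a ∈ Icc 1 (M - 1) | a.Coprime M ∧ R ∣ a ∧ lam a = e ∧ lam (M - a) = e'}

def PW (N q p : ℕ) : ℕ := p ^ (1 + (N / q).factorization p)

def TA (N q : ℕ) (ψ : Ch q) : ℝ := ∑ p ∈ Icc 1 N with (p.Prime ∧ re ψ p ≠ -1), 1 / (PW N q p : ℝ)

def YN (N : ℕ) : ℕ := ⌊(N : ℝ) ^ (0.333 : ℝ)⌋₊

def SS (N q : ℕ) (ψ : Ch q) : Finset ℕ := {p ∈ Icc 1 N | p.Prime ∧ re ψ p ≠ -1 ∧ PW N q p ≤ YN N}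

/-- Every large level with few exceptions carries the character `ψ`. -/
def AN (N : ℕ) (η : ℝ) (q : ℕ) (ψ : Ch q) : Prop := ∀ (M : ℕ) [NeZero M], M ∣ N → N ≤ M ^ 2 →
  ∀ (χ : Ch M) (σ : ℤ), χ ^ 2 = 1 → (σ = 1 ∨ σ = -1) → (EX χ σ : ℝ) ≤ η * M.totient →
    q ∣ M ∧ ∀ n : ℕ, n.Coprime M → re χ n = re ψ n

def UP_s : Prop := ∀ (N q : ℕ) (ψ : Ch q) (e e' : ℤ), 0 < N → q ∣ N → ψ ^ 2 = 1 →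
  (e = 1 ∨ e = -1) → (e' = 1 ∨ e' = -1) → ψ (-1) = -((e * e' : ℤ) : ℂ) →
    (cnt N e e' : ℝ) ≤ 2 * TA N q ψ * N

def BON_s : Prop := ∀ (N : ℕ) (A S : Finset ℕ) (R : ℕ → ℕ) (κ : ℝ), 0 < κ → κ ≤ 1 → A ⊆ Icc 1 N →
  (∀ p ∈ S, 0 < R p ∧ κ * N / R p ≤ #{a ∈ A | R p ∣ a}) →
  (∀ p ∈ S, ∀ p' ∈ S, p ≠ p' → (R p).Coprime (R p')) →
    κ ^ 2 / 8 * min 1 (∑ p ∈ S, 1 / (R p : ℝ)) * N ≤ #A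

def DIRP_s : Prop := ∃ (κ : ℝ) (K N₀ : ℕ), 0 < κ ∧ 0 < K ∧
  ∀ (M : ℕ) [NeZero M] (χ : Ch M) (c : ℕ) (e e' : ℤ), N₀ ≤ M → χ ^ 2 = 1 → χ ≠ 1 →
    (e = 1 ∨ e = -1) → (e' = 1 ∨ e' = -1) → re χ (M - 1) = -(e * e') →
    SL χ (M / 2 ^ (Nat.log 2 M / K)) ≤ κ → c.Prime → re χ c = 1 →
    (c : ℝ) ≤ (M : ℝ) ^ (0.334 : ℝ) → κ * M.totient / c ≤ cV M c e e'

def CLP_s : Prop := ∀ (N R : ℕ) (e e' : ℤ), 0 < N →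
  ∑ g ∈ N.divisors, cV (N / g) R (lam g * e) (lam g * e') ≤ cD N R e e' ∧
    (∀ t : ℕ, 0 < t → cD N R (lam t * e) (lam t * e') ≤ cD (t * N) (t * R) e e') ∧
    cnt N e e' = cD N 1 e e'

def ANC_s : Prop := ∃ η : ℝ, 0 < η ∧ ∃ N₀ : ℕ, ∀ (N M : ℕ) [NeZero M], N₀ ≤ N → M ∣ N →
  N ≤ M ^ 2 → ∀ (χ : Ch M) (σ : ℤ), χ ^ 2 = 1 → (σ = 1 ∨ σ = -1) →
    (EX χ σ : ℝ) ≤ η * M.totient → ∃ (q : ℕ) (ψ : Ch q), ψ ^ 2 = 1 ∧ AN N η q ψ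

/-- A prime of the conductor: the level `N / PW` is not exceptional. -/
def EVA_s [Sg] : Prop := ∀ η : ℝ, 0 < η → ∃ κ : ℝ, 0 < κ ∧ ∃ N₀ : ℕ,
  ∀ (N q : ℕ) (ψ : Ch q) (e : ℤ) (p : ℕ), N₀ ≤ N → q ∣ N → AN N η q ψ → (e = 1 ∨ e = -1) →
    p.Prime → p ∣ q → PW N q p ≤ YN N → κ * N / PW N q p ≤ cD N (PW N q p) e (-Sg.s * e)

/-- A split prime that does not divide an exceptional level. -/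
def LVP_s [Sg] : Prop := ∀ η : ℝ, 0 < η → ∃ κ : ℝ, 0 < κ ∧ ∃ N₀ : ℕ,
  ∀ (N N₁ q : ℕ) (ψ : Ch q) (e : ℤ) (p : ℕ), N₀ ≤ N → N₁ ∣ N → N ^ 3 ≤ N₁ ^ 5 → AN N η q ψ →
    (e = 1 ∨ e = -1) → p.Prime → ¬p ∣ N₁ → re ψ p = 1 → (p : ℝ) ≤ (N₁ : ℝ) ^ (0.333 : ℝ) →
    (cnt N₁ e (-Sg.s * e) : ℝ) ≤ κ * N₁ → κ * N₁ / p ≤ cD N₁ p e (-Sg.s * e)

def EVT_s [Sg] : Prop := ∀ η : ℝ, 0 < η → ∃ κ : ℝ, 0 < κ ∧ κ ≤ 1 ∧ ∃ N₀ : ℕ,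
  ∀ (N q : ℕ) (ψ : Ch q) (e : ℤ), N₀ ≤ N → q ∣ N → ψ ^ 2 = 1 → AN N η q ψ → (e = 1 ∨ e = -1) →
    (cnt N e (-Sg.s * e) : ℝ) ≤ κ * N → ∀ p ∈ SS N q ψ, ∃ k : ℕ, 0 < k ∧ p ^ k ≤ PW N q p ∧
      κ * N / ((p ^ k : ℕ) : ℝ) ≤ cD N (p ^ k) e (-Sg.s * e)

def LIFT_s : Prop := ∀ (N : ℕ) [NeZero N] (χ : Ch N), χ ^ 2 = 1 → χ ≠ 1 →
  ∃ χ' : Ch (N ^ 2), χ' ^ 2 = 1 ∧ χ' ≠ 1 ∧ ∀ n : ℕ, re χ' n = re χ n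

def ZLOW_s : Prop := ∀ (N : ℕ) [NeZero N] (χ : Ch N) (y : ℕ), χ ^ 2 = 1 → y ≤ N →
  (∑ p ∈ Ioc y N with (p.Prime ∧ re χ p = 1), 1 / (p : ℝ)) * N / N.totient ≤ ZX χ (N ^ 2) - ZX χ y

def BIG_s : Prop := ∃ (C : ℝ) (N₀ : ℕ), 0 < C ∧ ∀ (N : ℕ) [NeZero N] (χ : Ch N), N₀ ≤ N →
  χ ^ 2 = 1 → χ ≠ 1 →
    ∑ p ∈ Ioc (YN N) N with (p.Prime ∧ re χ p = 1), 1 / (p : ℝ) + (Nat.log 2 N : ℝ) / YN N ≤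
      C * ((N.totient : ℝ) / N * ‖DirichletCharacter.LFunction χ 1‖ * Real.log N)

def TAIL_s : Prop := ∃ (η C : ℝ) (N₀ : ℕ), 0 < η ∧ 1 ≤ C ∧ ∀ (N M q : ℕ) [NeZero M] (χ : Ch M)
  (ψ : Ch q) (σ : ℤ), N₀ ≤ N → M ∣ N → N ^ 999 ≤ M ^ 1000 → χ ^ 2 = 1 → χ ≠ 1 → ψ ^ 2 = 1 →
    (σ = 1 ∨ σ = -1) → (EX χ σ : ℝ) ≤ η * M.totient → q ∣ M →
    (∀ n : ℕ, n.Coprime M → re χ n = re ψ n) → TA N q ψ ≤ C * ∑ p ∈ SS N q ψ, 1 / (PW N q p : ℝ)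

def LOW_s : Prop := ∃ c : ℝ, 0 < c ∧ ∃ N₀ : ℕ, ∀ N : ℕ, N₀ ≤ N →
  ∀ e e' : ℤ, (e = 1 ∨ e = -1) → (e' = 1 ∨ e' = -1) → c * N ≤ cnt N e e' ∨
    ∃ (q : ℕ) (ψ : Ch q), q ∣ N ∧ ψ ^ 2 = 1 ∧ ψ (-1) = -((e * e' : ℤ) : ℂ) ∧
      c * TA N q ψ * N ≤ cnt N e e'

def ORD_s : Prop := ∃ c : ℝ, 0 < c ∧ ∃ N₀ : ℕ, ∀ (N : ℕ) [NeZero N], N₀ ≤ N →
  ∀ e e' : ℤ, (e = 1 ∨ e = -1) → (e' = 1 ∨ e' = -1) → ∃ μ m : ℝ,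
    IsLeast (insert 1 {t | ∃ (q : ℕ) (ψ : Ch q), q ∣ N ∧ ψ ^ 2 = 1 ∧
      ψ (-1) = -((e * e' : ℤ) : ℂ) ∧ t = TA N q ψ}) μ ∧
    c * μ * N ≤ cnt N e e' ∧ (cnt N e e' : ℝ) ≤ 2 * μ * N ∧ c * m ≤ μ ∧
    (m = 1 ∨ ∃ χ : DirichletCharacter ℂ N, χ ≠ 1 ∧ χ ^ 2 = 1 ∧ χ (-1) = -((e * e' : ℤ) : ℂ) ∧
      m = (N.totient : ℝ) / N * ‖DirichletCharacter.LFunction χ 1‖ * Real.log N)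

end

end Pool.Agent.G38
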