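import Pool.Agent.MP_b5e119_nt.G38.Defs

namespace Pool.Agent.G38

open Finset Filter Topology Pool.Agent.G60 Pool.Agent.G42 Pool.Agent.G55
open Pool.Agent.G27 (nu re EX UN)

theorem eva_cube {N t : ℕ} (hN : 1 ≤ N) (h : t ≤ YN N) : t ^ 3 ≤ N := by
  have h1 : (1 : ℝ) ≤ N := by exact_mod_cast hN
  have h2 : (t : ℝ) ≤ (N : ℝ) ^ (0.333 : ℝ) :=
    le_trans (by exact_mod_cast h) (Nat.floor_le (Real.rpow_nonneg (by linarith) _))
  have h3 : (t : ℝ) ^ 3 ≤ N := by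
    calc (t : ℝ) ^ 3 ≤ ((N : ℝ) ^ (0.333 : ℝ)) ^ 3 := pow_le_pow_left₀ (Nat.cast_nonneg t) h2 3
      _ = (N : ℝ) ^ ((0.333 : ℝ) * (3 : ℕ)) := (Real.rpow_mul_natCast (by linarith) _ _).symm
      _ ≤ (N : ℝ) ^ (1 : ℝ) := Real.rpow_le_rpow_of_exponent_le h1 (by norm_num)
      _ = N := Real.rpow_one _
  exact_mod_cast h3

theorem eva_row [Sg] (hI : INVM_s) (hC : CLP_s) : EVA_s := by
  intro η hη
  obtain ⟨c, hc, N₁, hI⟩ := hI η hη
  refine ⟨c, hc, N₁ ^ 2 + 1, fun N q ψ e p hN hq hA he hp hpq hY => ?_⟩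
  have hN0 : 0 < N := by omega
  obtain ⟨r, hr⟩ := hq
  have hq0 : 0 < q := Nat.pos_of_ne_zero fun h => by rw [h, zero_mul] at hr; omega
  have hr0 : r ≠ 0 := fun h => by rw [h, mul_zero] at hr; omega
  have hdiv : N / q = r := by rw [hr, Nat.mul_div_cancel_left _ hq0]
  have hPW : PW N q p = p ^ (r.factorization p + 1) := by rw [PW, hdiv, add_comm]
  have ht : PW N q p ∣ N := by
    rw [hPW, pow_succ, mul_comm]
    conv_rhs => rw [hr]
    exact Nat.mul_dvd_mul hpq (Nat.ordProj_dvd r p)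
  have h3 := eva_cube hN0 hY
  generalize PW N q p = t at hPW ht h3 ⊢
  obtain ⟨n, hn⟩ := ht
  have ht0 : 0 < t := Nat.pos_of_ne_zero fun h => by rw [h, zero_mul] at hn; omega
  have hn0 : 0 < n := Nat.pos_of_ne_zero fun h => by rw [h, mul_zero] at hn; omega
  have hqn : ¬q ∣ n := by
    rintro ⟨r', hr'⟩
    have h4 : r = t * r' := Nat.eq_of_mul_eq_mul_left hq0 (by rw [← hr, hn, hr']; ring)
    exact Nat.pow_succ_factorization_not_dvd hr0 hp ⟨r', by rw [← hPW]; exact h4⟩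
  have h5 : N ^ 2 ≤ n ^ 3 := by
    refine Nat.le_of_mul_le_mul_left ?_ hN0
    calc N * N ^ 2 = N ^ 3 := by ring
      _ = t ^ 3 * n ^ 3 := by rw [hn, mul_pow]
      _ ≤ N * n ^ 3 := Nat.mul_le_mul_right _ h3
  have h6 : N ≤ n ^ 2 := by
    refine (Nat.pow_le_pow_iff_left two_ne_zero).1 (h5.trans ?_)
    rw [← pow_mul]
    exact Nat.pow_le_pow_right hn0 (by norm_num)
  have h7 : N₁ ≤ n := (Nat.pow_le_pow_iff_left two_ne_zero).1 (by omega)
  have he' : lam t * e = 1 ∨ lam t * e = -1 := by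
    rcases lam_cases t with h | h <;> rcases he with h' | h' <;> simp [h, h']
  have hbig : c * n < cnt n (lam t * e) (-Sg.s * (lam t * e)) := by
    by_contra hsm
    obtain ⟨D, hD, hsum, hall⟩ := hI n h7 _ he' (not_lt.1 hsm)
    have hne : D.Nonempty := by
      rw [nonempty_iff_ne_empty]
      rintro rfl
      have : (0 : ℝ) < n := by exact_mod_cast hn0
      rw [sum_empty] at hsum
      linarith
    obtain ⟨g, hg⟩ := hne
    obtain ⟨M, hM⟩ := Nat.dvd_of_mem_divisors (hD hg)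
    have hM0 : M ≠ 0 := fun h => by rw [h, mul_zero] at hM; omega
    have : NeZero M := ⟨hM0⟩
    have hMn : M ∣ n := ⟨g, by rw [hM, mul_comm]⟩
    obtain ⟨h8, χ, σ, hχ, _, hσ, hE, _⟩ := hall g hg M (by rw [hM, mul_comm])
    have h9 : N ≤ M ^ 2 := by
      refine (Nat.pow_le_pow_iff_left (n := 666) (by norm_num)).1 ?_
      calc N ^ 666 = (N ^ 2) ^ 333 := by rw [← pow_mul]
        _ ≤ (n ^ 3) ^ 333 := Nat.pow_le_pow_left h5 _
        _ = n ^ 999 := by rw [← pow_mul]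
        _ ≤ M ^ 1000 := h8
        _ ≤ M ^ 1332 := Nat.pow_le_pow_right (Nat.pos_of_ne_zero hM0) (by norm_num)
        _ = (M ^ 2) ^ 666 := by rw [← pow_mul]
    exact hqn ((hA M (hMn.trans ⟨t, by rw [hn, mul_comm]⟩) h9 χ σ hχ hσ hE).1.trans hMn)
  have h10 := (hC n 1 e (-Sg.s * e) hn0).2.1 t ht0
  have h11 := (hC n 1 (lam t * e) (-Sg.s * (lam t * e)) hn0).2.2
  rw [mul_one, ← hn, show lam t * (-Sg.s * e) = -Sg.s * (lam t * e) by ring, ← h11] at h10
  have h12 : (t : ℝ) ≠ 0 := by exact_mod_cast ht0.ne'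
  have h13 : c * N / t = c * n := by
    rw [hn]
    push_cast
    field_simp
  rw [h13]
  exact hbig.le.trans (by exact_mod_cast h10)

end Pool.Agent.G38
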