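import Pool.Agent.MP_b5e119_nt.G38.Defs

namespace Pool.Agent.G38

open Finset Filter Topology Pool.Agent.G60 Pool.Agent.G42 Pool.Agent.G55
open Pool.Agent.G27 (nu re EX UN)

theorem evt_num (N₁ t p : ℕ) (ht : 0 < t) (hp : 0 < p) (hN : 0 < N₁) (h : p * t ≤ YN (t * N₁)) :
    (t * N₁) ^ 3 ≤ N₁ ^ 5 ∧ (p : ℝ) ≤ (N₁ : ℝ) ^ (0.333 : ℝ) := by
  have htR : (1 : ℝ) ≤ t := by exact_mod_cast ht
  have hpR : (1 : ℝ) ≤ p := by exact_mod_cast hp
  have hNR : (1 : ℝ) ≤ N₁ := by exact_mod_cast hN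
  have h1 : ((p * t : ℕ) : ℝ) ≤ ((t * N₁ : ℕ) : ℝ) ^ (0.333 : ℝ) :=
    (Nat.le_floor_iff (by positivity)).1 h
  push_cast at h1
  constructor
  · have h2 : (t : ℝ) ≤ ((t : ℝ) * N₁) ^ (0.333 : ℝ) := le_trans (by nlinarith) h1
    have h3 := pow_le_pow_left₀ (by positivity) h2 3
    rw [← Real.rpow_natCast (((t : ℝ) * N₁) ^ (0.333 : ℝ)), ← Real.rpow_mul (by positivity)] at h3
    have h4 : ((t : ℝ) * N₁) ^ ((0.333 : ℝ) * ((3 : ℕ) : ℝ)) ≤ ((t : ℝ) * N₁) ^ (1 : ℝ) :=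
      Real.rpow_le_rpow_of_exponent_le (by nlinarith) (by norm_num)
    rw [Real.rpow_one] at h4
    have h5 : t ^ 3 ≤ t * N₁ := by exact_mod_cast h3.trans h4
    have h6 : t ^ 2 ≤ N₁ := by
      refine Nat.le_of_mul_le_mul_left ?_ ht
      calc t * t ^ 2 = t ^ 3 := by ring
        _ ≤ _ := h5
    have h7 : t ^ 3 ≤ N₁ ^ 2 := by
      calc t ^ 3 ≤ t ^ 4 := Nat.pow_le_pow_right ht (by norm_num)
        _ = (t ^ 2) ^ 2 := by ring
        _ ≤ N₁ ^ 2 := Nat.pow_le_pow_left h6 2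
    calc (t * N₁) ^ 3 = t ^ 3 * N₁ ^ 3 := by ring
      _ ≤ N₁ ^ 2 * N₁ ^ 3 := Nat.mul_le_mul_right _ h7
      _ = N₁ ^ 5 := by ring
  · rw [Real.mul_rpow (by positivity) (by positivity)] at h1
    have h2 : (t : ℝ) ^ (0.333 : ℝ) ≤ (t : ℝ) ^ (1 : ℝ) :=
      Real.rpow_le_rpow_of_exponent_le htR (by norm_num)
    rw [Real.rpow_one] at h2
    have h3 : (0 : ℝ) ≤ (N₁ : ℝ) ^ (0.333 : ℝ) := by positivity
    have h4 : (p : ℝ) * t ≤ (N₁ : ℝ) ^ (0.333 : ℝ) * t := by nlinarith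
    exact le_of_mul_le_mul_right h4 (by linarith)

theorem evt_row [Sg] (hA : EVA_s) (hL : LVP_s) (hC : CLP_s) : EVT_s := by
  intro η hη
  obtain ⟨κ₁, hκ₁, N₁, h1⟩ := hA η hη
  obtain ⟨κ₂, hκ₂, N₂, h2⟩ := hL η hη
  obtain ⟨κ, hκ⟩ : ∃ κ, κ = min 1 (min κ₁ κ₂) := ⟨_, rfl⟩
  have k0 : 0 < κ := by rw [hκ]; exact lt_min one_pos (lt_min hκ₁ hκ₂)
  have k1 : κ ≤ 1 := by rw [hκ]; exact min_le_left _ _
  have k2 : κ ≤ κ₁ := by rw [hκ]; exact (min_le_right _ _).trans (min_le_left _ _)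
  have k3 : κ ≤ κ₂ := by rw [hκ]; exact (min_le_right _ _).trans (min_le_right _ _)
  refine ⟨κ, k0, k1, N₁ + N₂ + 1, ?_⟩
  intro N q ψ e hN hq hψ hAN he hc p hp
  unfold SS at hp
  rw [mem_filter] at hp
  obtain ⟨-, hpp, hre, hPW⟩ := hp
  have hN0 : 0 < N := by omega
  by_cases hpq : p ∣ q
  · refine ⟨1 + (N / q).factorization p, by omega, le_rfl, ?_⟩
    refine le_trans ?_ (h1 N q ψ e p (by omega) hq hAN he hpp hpq hPW)
    exact div_le_div_of_nonneg_right (mul_le_mul_of_nonneg_right k2 (Nat.cast_nonneg _))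
      (Nat.cast_nonneg _)
  have hco : p.Coprime q := (Nat.Prime.coprime_iff_not_dvd hpp).2 hpq
  have hr1 : re ψ p = 1 := (G27.re_unit hψ hco).resolve_right hre
  unfold PW at hPW ⊢
  have hNq : q * (N / q) = N := Nat.mul_div_cancel' hq
  have hNq0 : N / q ≠ 0 := by
    intro h
    rw [h] at hNq
    omega
  have hnd := Nat.pow_succ_factorization_not_dvd hNq0 hpp
  have hd : p ^ (N / q).factorization p ∣ N :=
    (Nat.ordProj_dvd (N / q) p).trans (Nat.div_dvd_of_dvd hq)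
  obtain ⟨v, hv⟩ : ∃ v, v = (N / q).factorization p := ⟨_, rfl⟩
  rw [← hv] at hPW hnd hd ⊢
  obtain ⟨M, hM⟩ := hd
  have hpM : ¬p ∣ M := by
    rintro ⟨c, hc'⟩
    apply hnd
    refine Nat.Coprime.dvd_of_dvd_mul_left (Nat.Coprime.pow_left (v + 1) hco) ?_
    rw [hNq]
    exact ⟨c, by rw [hM, hc']; ring⟩
  obtain ⟨t, ht⟩ : ∃ t, t = p ^ v := ⟨_, rfl⟩
  have ht0 : 0 < t := by rw [ht]; exact pow_pos hpp.pos v
  have hpt : p ^ (1 + v) = p * t := by rw [ht]; ring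
  rw [← ht] at hM
  have hM0 : 0 < M := by
    rcases Nat.eq_zero_or_pos M with h | h
    · rw [h] at hM
      omega
    · exact h
  obtain ⟨n1, n2⟩ := evt_num M t p ht0 hpp.pos hM0 (by rw [← hpt, ← hM]; exact hPW)
  rw [← hM] at n1
  have he1 : lam t * e = 1 ∨ lam t * e = -1 := by
    rcases lam_cases t with h | h <;> rcases he with h' | h' <;> simp [h, h']
  have hs : -Sg.s * (lam t * e) = lam t * (-Sg.s * e) := by ring
  have htR : (0 : ℝ) < t := by exact_mod_cast ht0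
  have hpR : (0 : ℝ) < p := by exact_mod_cast hpp.pos
  have hMR : (0 : ℝ) < M := by exact_mod_cast hM0
  have hNR : (N : ℝ) = t * M := by exact_mod_cast hM
  by_cases hsm : (cnt M (lam t * e) (-Sg.s * (lam t * e)) : ℝ) ≤ κ₂ * M
  · have e1 := h2 N M q ψ (lam t * e) p (by omega) ⟨t, by rw [hM, mul_comm]⟩ n1 hAN he1 hpp hpM
      hr1 n2 hsm
    have e2 := (hC M p e (-Sg.s * e) hM0).2.1 t ht0
    rw [← hM, ← hs, mul_comm t p] at e2
    refine ⟨1 + v, by omega, le_rfl, ?_⟩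
    rw [hpt]
    have e3 : (cD M p (lam t * e) (-Sg.s * (lam t * e)) : ℝ) ≤ cD N (p * t) e (-Sg.s * e) := by
      exact_mod_cast e2
    refine le_trans ?_ (e1.trans e3)
    have e4 : κ * N / ((p * t : ℕ) : ℝ) = κ * M / p := by
      rw [hNR]
      push_cast
      field_simp
    rw [e4]
    exact div_le_div_of_nonneg_right (mul_le_mul_of_nonneg_right k3 hMR.le) hpR.le
  · rw [not_le] at hsm
    have hv0 : 0 < v := by
      rcases Nat.eq_zero_or_pos v with h | h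
      · exfalso
        rw [h, pow_zero] at ht
        rw [ht, one_mul] at hM
        rw [ht, lam_one, one_mul, ← hM] at hsm
        have e5 : κ * N ≤ κ₂ * N := mul_le_mul_of_nonneg_right k3 (Nat.cast_nonneg _)
        linarith
      · exact h
    have e2 := (hC M 1 e (-Sg.s * e) hM0).2.1 t ht0
    rw [← hM, ← hs, mul_one, ← (hC M 1 (lam t * e) (-Sg.s * (lam t * e)) hM0).2.2] at e2
    refine ⟨v, hv0, Nat.pow_le_pow_right hpp.pos (by omega), ?_⟩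
    rw [← ht]
    have e3 : (cnt M (lam t * e) (-Sg.s * (lam t * e)) : ℝ) ≤ cD N t e (-Sg.s * e) := by
      exact_mod_cast e2
    refine le_trans ?_ (hsm.le.trans e3)
    have e4 : κ * N / (t : ℝ) = κ * M := by
      rw [hNR]
      field_simp
    rw [e4]
    exact mul_le_mul_of_nonneg_right k3 hMR.le

end Pool.Agent.G38
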