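import Pool.Agent.MP_b5e119_nt.G38.Defs

namespace Pool.Agent.G38

open Finset Filter Topology Pool.Agent.G60 Pool.Agent.G42 Pool.Agent.G55
open Pool.Agent.G27 (nu re EX UN)

theorem lift_val (N : ℕ) [NeZero N] (χ : Ch N) (h : N ∣ N ^ 2) (n : ℕ) :
    (DirichletCharacter.changeLevel h χ) (n : ZMod (N ^ 2)) = χ (n : ZMod N) := by
  have : NeZero (N ^ 2) := ⟨pow_ne_zero 2 (NeZero.ne N)⟩
  by_cases hn : n.Coprime N
  · have h2 : n.Coprime (N ^ 2) := Nat.Coprime.pow_right 2 hn
    have := DirichletCharacter.changeLevel_eq_cast_of_dvd χ h (ZMod.unitOfCoprime n h2)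
    rw [ZMod.coe_unitOfCoprime] at this
    rw [this, ZMod.cast_natCast h]
  · have h2 : ¬ n.Coprime (N ^ 2) := fun h2 => hn (Nat.Coprime.coprime_dvd_right h h2)
    rw [MulChar.map_nonunit _ (by rwa [ZMod.isUnit_iff_coprime]),
      MulChar.map_nonunit _ (by rwa [ZMod.isUnit_iff_coprime])]

theorem lift_row : LIFT_s := by
  intro N _ χ h1 h2
  have : NeZero (N ^ 2) := ⟨pow_ne_zero 2 (NeZero.ne N)⟩
  have h : N ∣ N ^ 2 := dvd_pow_self N two_ne_zero
  refine ⟨DirichletCharacter.changeLevel h χ, by rw [← map_pow, h1, map_one], fun h3 => h2 ?_,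
    fun n => ?_⟩
  · exact DirichletCharacter.changeLevel_injective h (by rw [h3, map_one])
  · unfold re
    rw [lift_val]

end Pool.Agent.G38
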