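import Pool.Agent.MP_b5e119_nt.G38.Defs

namespace Pool.Agent.G38

open Finset Filter Topology Pool.Agent.G60 Pool.Agent.G42 Pool.Agent.G55
open Pool.Agent.G27 (nu re EX UN)

theorem low_neg {L M : ℕ} (hL : 0 < L) (h : M ∣ L) : ((L - 1 : ℕ) : ZMod M) = -1 := by
  rw [Nat.cast_sub hL, (ZMod.natCast_eq_zero_iff L M).2 h]
  simp

theorem low_one [Sg] (hI : INVM_s) (hE : EVT_s) (hA : ANC_s) (hB : BON_s) (hT : TAIL_s) :
    ∃ c : ℝ, 0 < c ∧ ∃ N₀ : ℕ, ∀ N : ℕ, N₀ ≤ N → ∀ e : ℤ, (e = 1 ∨ e = -1) →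
      c * N ≤ cnt N e (-Sg.s * e) ∨ ∃ (q : ℕ) (ψ : Ch q), q ∣ N ∧ ψ ^ 2 = 1 ∧
        ψ (-1) = ((Sg.s : ℤ) : ℂ) ∧ c * TA N q ψ * N ≤ cnt N e (-Sg.s * e) := by
  classical
  obtain ⟨ηA, hηA, N₁, hA⟩ := hA
  obtain ⟨ηT, C, N₂, hηT, hC, hT⟩ := hT
  obtain ⟨κ, hκ, hκ1, N₃, hE⟩ := hE ηA hηA
  obtain ⟨c₁, hc₁, N₄, hI⟩ := hI (min ηA ηT) (lt_min hηA hηT)
  refine ⟨min (min c₁ κ) (κ ^ 2 / (8 * C)), by positivity, N₁ + N₂ + N₃ + N₄ + 1,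
    fun N hN e he => ?_⟩
  have hN0 : (0 : ℝ) < N := by exact_mod_cast (by omega : 0 < N)
  by_cases h : min c₁ κ * N ≤ cnt N e (-Sg.s * e)
  · exact Or.inl ((mul_le_mul_of_nonneg_right (min_le_left _ _) hN0.le).trans h)
  have b1 := (not_le.1 h).le.trans (mul_le_mul_of_nonneg_right (min_le_left c₁ κ) hN0.le)
  have b2 := (not_le.1 h).le.trans (mul_le_mul_of_nonneg_right (min_le_right c₁ κ) hN0.le)
  obtain ⟨D, d1, d2, d3⟩ := hI N (by omega) e he b1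
  obtain ⟨g, hg⟩ : D.Nonempty := by
    rw [nonempty_iff_ne_empty]
    rintro rfl
    rw [sum_empty] at d2
    linarith
  obtain ⟨M, hM⟩ := Nat.dvd_of_mem_divisors (d1 hg)
  have hM' : M * g = N := by rw [hM, mul_comm]
  have : NeZero M := ⟨by rintro rfl; omega⟩
  have hd : M ∣ N := Dvd.intro _ hM'
  obtain ⟨a0, χ, σ, a1, a2, a3, a4, a5⟩ := d3 g hg M hM'
  have a6 : N ≤ M ^ 2 := by
    refine (Nat.pow_le_pow_iff_left (by norm_num : 999 ≠ 0)).1 (a0.trans ?_)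
    rw [← pow_mul]
    exact Nat.pow_le_pow_right (NeZero.pos M) (by norm_num)
  have a7 := a4.trans (mul_le_mul_of_nonneg_right (min_le_left ηA ηT) (Nat.cast_nonneg _))
  have a8 := a4.trans (mul_le_mul_of_nonneg_right (min_le_right ηA ηT) (Nat.cast_nonneg _))
  obtain ⟨q, ψ, p1, p2⟩ := hA N M (by omega) hd a6 χ σ a1 a3 a7
  obtain ⟨p3, p4⟩ := p2 M hd a6 χ σ a1 a3 a7
  have p5 : ψ (-1) = ((Sg.s : ℤ) : ℂ) := by
    rw [← a5, p4 _ ((Nat.coprime_self_sub_left (NeZero.pos M)).2 (Nat.coprime_one_left M)),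
      G27.re_coe p1, low_neg (NeZero.pos M) p3]
  have t1 := hT N M q χ ψ σ (by omega) hd a0 a1 a2 p1 a3 a8 p3 p4
  have t2 := hE N q ψ e (by omega) (p3.trans hd) p1 p2 he b2
  choose! k k1 k2 k3 using t2
  have pr : ∀ p ∈ SS N q ψ, p.Prime := fun p hp => (mem_filter.1 hp).2.1
  have t3 := hB N {a ∈ Icc 1 (N - 1) | lam a = e ∧ lam (N - a) = -Sg.s * e} (SS N q ψ)
    (fun p => p ^ k p) κ hκ hκ1
    ((filter_subset _ _).trans (Icc_subset_Icc_right (Nat.sub_le _ _)))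
    (fun p hp => ⟨pow_pos (pr p hp).pos _, (k3 p hp).trans (le_of_eq (by
      rw [cD, filter_filter]
      exact congrArg (fun s : Finset ℕ => (#s : ℝ)) (filter_congr fun a _ => and_comm)))⟩)
    fun p hp p' hp' hne => Nat.Coprime.pow _ _ ((Nat.coprime_primes (pr p hp) (pr p' hp')).2 hne)
  change _ ≤ (cnt N e (-Sg.s * e) : ℝ) at t3
  have t4 : ∑ p ∈ SS N q ψ, 1 / (PW N q p : ℝ) ≤ ∑ p ∈ SS N q ψ, 1 / ((p ^ k p : ℕ) : ℝ) :=
    sum_le_sum fun p hp => one_div_le_one_div_of_le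
      (by exact_mod_cast pow_pos (pr p hp).pos _) (by exact_mod_cast k2 p hp)
  have hC0 : 0 < C := by linarith
  have c1 : min (min c₁ κ) (κ ^ 2 / (8 * C)) ≤ κ ^ 2 / (8 * C) := min_le_right _ _
  rcases le_total 1 (∑ p ∈ SS N q ψ, 1 / ((p ^ k p : ℕ) : ℝ)) with hs | hs
  · rw [min_eq_left hs, mul_one] at t3
    refine Or.inl (le_trans (mul_le_mul_of_nonneg_right (c1.trans ?_) hN0.le) t3)
    exact div_le_div_of_nonneg_left (by positivity) (by norm_num) (by linarith)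
  · rw [min_eq_right hs] at t3
    refine Or.inr ⟨q, ψ, p3.trans hd, p1, p5, le_trans (mul_le_mul_of_nonneg_right ?_ hN0.le) t3⟩
    have t0 : 0 ≤ TA N q ψ := sum_nonneg fun _ _ => by positivity
    calc _ ≤ κ ^ 2 / (8 * C) * (C * ∑ p ∈ SS N q ψ, 1 / ((p ^ k p : ℕ) : ℝ)) :=
          mul_le_mul c1 (t1.trans (mul_le_mul_of_nonneg_left t4 hC0.le)) t0 (by positivity)
      _ = _ := by field_simp

theorem low_row (hI : ∀ i : Sg, @INVM_s i) (hE : ∀ i : Sg, @EVT_s i) (hA : ANC_s) (hB : BON_s)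
    (hT : TAIL_s) : LOW_s := by
  obtain ⟨c₁, hc₁, N₁, h1⟩ := @low_one ⟨1, Or.inl rfl⟩ (hI _) (hE _) hA hB hT
  obtain ⟨c₂, hc₂, N₂, h2⟩ := @low_one ⟨-1, Or.inr rfl⟩ (hI _) (hE _) hA hB hT
  refine ⟨min c₁ c₂, lt_min hc₁ hc₂, N₁ + N₂, fun N hN e e' he he' => ?_⟩
  have t0 : ∀ (q : ℕ) (ψ : Ch q), 0 ≤ TA N q ψ := fun _ _ => sum_nonneg fun _ _ => by positivity
  have key : ∀ c : ℝ, min c₁ c₂ ≤ c → (c * N ≤ cnt N e e' ∨ ∃ (q : ℕ) (ψ : Ch q), q ∣ N ∧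
      ψ ^ 2 = 1 ∧ ψ (-1) = -((e * e' : ℤ) : ℂ) ∧ c * TA N q ψ * N ≤ cnt N e e') →
      min c₁ c₂ * N ≤ cnt N e e' ∨ ∃ (q : ℕ) (ψ : Ch q), q ∣ N ∧ ψ ^ 2 = 1 ∧
        ψ (-1) = -((e * e' : ℤ) : ℂ) ∧ min c₁ c₂ * TA N q ψ * N ≤ cnt N e e' := fun c hc h =>
    h.imp ((mul_le_mul_of_nonneg_right hc (Nat.cast_nonneg _)).trans)
      fun ⟨q, ψ, a, b, c', d⟩ => ⟨q, ψ, a, b, c', (mul_le_mul_of_nonneg_right
        (mul_le_mul_of_nonneg_right hc (t0 q ψ)) (Nat.cast_nonneg _)).trans d⟩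
  rcases (by omega : e' = -e ∨ e' = e) with rfl | rfl
  · refine key c₁ (min_le_left _ _) ?_
    have := h1 N (by omega) e he
    rcases he with rfl | rfl <;> simpa using this
  · refine key c₂ (min_le_right _ _) ?_
    have := h2 N (by omega) e' he
    rcases he with rfl | rfl <;> simpa using this

end Pool.Agent.G38
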