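import Pool.Agent.MP_b5e119_nt.G38.Defs

namespace Pool.Agent.G38

open Finset Filter Topology Pool.Agent.G60 Pool.Agent.G42 Pool.Agent.G55
open Pool.Agent.G27 (nu re EX UN)

theorem lvp_pow {A M : ℕ} (hM : 0 < M) (h : A ^ 999 ≤ M ^ 1000) :
    (A : ℝ) ^ (0.333 : ℝ) ≤ (M : ℝ) ^ (0.334 : ℝ) := by
  have h1 : (A : ℝ) ^ 999 ≤ (M : ℝ) ^ 1000 := by exact_mod_cast h
  have h2 := Real.rpow_le_rpow (pow_nonneg (Nat.cast_nonneg A) _) h1
    (show (0 : ℝ) ≤ 1 / 3000 by norm_num)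
  rw [← Real.rpow_natCast, ← Real.rpow_natCast, ← Real.rpow_mul (Nat.cast_nonneg A),
    ← Real.rpow_mul (Nat.cast_nonneg M)] at h2
  refine le_trans (le_of_eq ?_) (h2.trans
    (Real.rpow_le_rpow_of_exponent_le (by exact_mod_cast hM) (by norm_num)))
  congr 1
  norm_num

theorem lvp_row [Sg] (h1 : INVM_s) (h2 : SLG_s) (h3 : DIRP_s) (h4 : CLP_s) : LVP_s := by
  intro η hη
  obtain ⟨κ, K, N₂, hκ, hK, dir⟩ := h3
  obtain ⟨δ, hδ, N₃, slg⟩ := h2 κ K hκ hK
  obtain ⟨c, hc, N₄, inv⟩ := h1 (min η δ) (lt_min hη hδ)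
  refine ⟨min c (κ / 2), lt_min hc (by positivity), (N₂ + N₃ + N₄ + 1) ^ 2,
    fun N N₁ q ψ e p hN hd h35 an he hp hpN hs hle hcnt => ?_⟩
  have N0 : 0 < N := lt_of_lt_of_le (by positivity) hN
  have M0 : 0 < N₁ := Nat.pos_of_dvd_of_pos hd N0
  have a1 : N ≤ N₁ ^ 2 := by
    rw [← Nat.pow_le_pow_iff_left three_ne_zero, ← pow_mul]
    exact h35.trans (Nat.pow_le_pow_right M0 (by norm_num))
  have a2 : N₂ + N₃ + N₄ + 1 ≤ N₁ := (Nat.pow_le_pow_iff_left two_ne_zero).1 (hN.trans a1)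
  obtain ⟨D, hD, hs2, lev⟩ := inv N₁ (by omega) e he
    (hcnt.trans (mul_le_mul_of_nonneg_right (min_le_left _ _) (Nat.cast_nonneg _)))
  have p0 : (0 : ℝ) < p := by exact_mod_cast hp.pos
  have key : ∀ g ∈ D, κ * ((N₁ / g).totient : ℝ) / p ≤
      cV (N₁ / g) p (lam g * e) (lam g * (-Sg.s * e)) := fun g hg => by
    have g1 := Nat.dvd_of_mem_divisors (hD hg)
    have e1 : N₁ / g * g = N₁ := Nat.div_mul_cancel g1
    generalize N₁ / g = M at e1 ⊢
    have m0 : 0 < M := Nat.pos_of_mul_pos_right (e1 ▸ M0)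
    have : NeZero M := ⟨m0.ne'⟩
    have md : M ∣ N₁ := Dvd.intro _ e1
    obtain ⟨b1, χ, σ, c1, c2, c3, c4, c5⟩ := lev g hg M e1
    have b2 : N ≤ M ^ 2 := by
      rw [← Nat.pow_le_pow_iff_left (show 3 * 999 ≠ 0 by norm_num), ← pow_mul, pow_mul N]
      refine (Nat.pow_le_pow_left h35 _).trans ?_
      rw [← pow_mul, mul_comm 5, pow_mul N₁]
      refine (Nat.pow_le_pow_left b1 _).trans ?_
      rw [← pow_mul]
      exact Nat.pow_le_pow_right m0 (by norm_num)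
    have b3 : N₂ + N₃ + N₄ + 1 ≤ M := (Nat.pow_le_pow_iff_left two_ne_zero).1 (hN.trans b2)
    have t0 : (0 : ℝ) ≤ M.totient := Nat.cast_nonneg _
    have b4 := (an M (md.trans hd) b2 χ σ c1 c3
      (c4.trans (mul_le_mul_of_nonneg_right (min_le_left _ _) t0))).2 p
        (hp.coprime_iff_not_dvd.2 fun h => hpN (h.trans md))
    refine dir M χ p _ _ (by omega) c1 c2 ?_ ?_ ?_ (slg M χ σ (by omega) c1 c3
      (c4.trans (mul_le_mul_of_nonneg_right (min_le_right _ _) t0))) hp (b4.trans hs)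
      (hle.trans (lvp_pow m0 b1))
    · rcases lam_cases g with a | a <;> rcases he with b | b <;> rw [a, b] <;> norm_num
    · rcases lam_cases g with a | a <;> rcases he with b | b <;> rcases Sg.hs with d | d <;>
        rw [a, b, d] <;> norm_num
    · rw [c5]
      rcases lam_cases g with a | a <;> rcases he with b | b <;> rw [a, b] <;> ring
  have s1 := sum_le_sum key
  have s2 : ∑ g ∈ D, (cV (N₁ / g) p (lam g * e) (lam g * (-Sg.s * e)) : ℝ) ≤
      cD N₁ p e (-Sg.s * e) := by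
    exact_mod_cast (sum_le_sum_of_subset hD).trans (h4 N₁ p e (-Sg.s * e) M0).1
  rw [← sum_div, ← mul_sum] at s1
  refine le_trans (div_le_div_of_nonneg_right ?_ p0.le) (s1.trans s2)
  have s3 := mul_le_mul_of_nonneg_left hs2 hκ.le
  have s4 := mul_le_mul_of_nonneg_right (min_le_right c (κ / 2)) (Nat.cast_nonneg (α := ℝ) N₁)
  linarith only [s3, s4]

end Pool.Agent.G38
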