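import Pool.Agent.MP_b5e119_nt.G38.Defs

namespace Pool.Agent.G38

open Finset Filter Topology Pool.Agent.G60 Pool.Agent.G42 Pool.Agent.G55
open Pool.Agent.G27 (nu re EX UN)

theorem ord_fin (N : ℕ) (hN : N ≠ 0) (z : ℂ) : {t | ∃ (q : ℕ) (ψ : Ch q), q ∣ N ∧ ψ ^ 2 = 1 ∧
    ψ (-1) = z ∧ t = TA N q ψ}.Finite := by
  refine Set.Finite.subset (s := ⋃ q ∈ (N.divisors : Set ℕ), Set.range fun ψ : Ch q => TA N q ψ)
    (Set.Finite.biUnion (finite_toSet _) fun q hq => ?_) ?_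
  · have : NeZero q := ⟨(Nat.pos_of_mem_divisors hq).ne'⟩
    exact Set.finite_range _
  · rintro t ⟨q, ψ, h1, -, -, rfl⟩
    exact Set.mem_biUnion (Nat.mem_divisors.2 ⟨h1, hN⟩) ⟨ψ, rfl⟩

theorem ord_row (hL : LOW_s) (hU : UP_s) (hT : TOPS_s) : ORD_s := by
  obtain ⟨c₁, hc₁, N₁, hL⟩ := hL
  obtain ⟨c₂, hc₂, N₂, hT⟩ := hT
  refine ⟨min c₁ (c₂ / 2), by positivity, N₁ + N₂, fun N _ hN e e' he he' => ?_⟩
  have hN0 : (0 : ℝ) < N := by exact_mod_cast NeZero.pos N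
  obtain ⟨μ, h1, h2⟩ := Set.exists_min_image _ (fun t : ℝ => t)
    ((ord_fin N (NeZero.ne N) (-((e * e' : ℤ) : ℂ))).insert 1) (Set.insert_nonempty _ _)
  obtain ⟨m, hm, hm'⟩ := hT N (by omega) e e' he he'
  have hcnt : (cnt N e e' : ℝ) ≤ N := by
    have : cnt N e e' ≤ N := by
      unfold cnt
      refine (card_filter_le _ _).trans ?_
      simp
    exact_mod_cast this
  have hup : (cnt N e e' : ℝ) ≤ 2 * μ * N := by
    rcases h1 with rfl | ⟨q, ψ, a1, a2, a3, rfl⟩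
    · linarith
    · exact hU N q ψ e e' (NeZero.pos N) a1 a2 he he' a3
  have hμ0 : 0 ≤ μ := by
    have : (0 : ℝ) ≤ 2 * μ * N := (Nat.cast_nonneg _).trans hup
    by_contra h
    nlinarith
  have hm0 : 0 ≤ m := by
    rcases hm with rfl | ⟨χ, -, -, -, rfl⟩
    · exact zero_le_one
    · have := Real.log_natCast_nonneg N
      positivity
  have k1 : min c₁ (c₂ / 2) * μ * N ≤ c₁ * μ * N := by
    gcongr
    exact min_le_left _ _
  refine ⟨μ, m, ⟨h1, h2⟩, k1.trans ?_, hup, ?_, hm⟩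
  · rcases hL N (by omega) e e' he he' with h | ⟨q, ψ, a1, a2, a3, h⟩
    · refine le_trans ?_ h
      have := h2 1 (Set.mem_insert _ _)
      calc c₁ * μ * N ≤ c₁ * 1 * N := by gcongr
        _ = c₁ * N := by ring
    · refine le_trans ?_ h
      have := h2 _ (Set.mem_insert_of_mem _ ⟨q, ψ, a1, a2, a3, rfl⟩)
      gcongr
  · have k2 : min c₁ (c₂ / 2) * m ≤ c₂ / 2 * m := mul_le_mul_of_nonneg_right (min_le_right _ _) hm0
    have k3 : c₂ * m ≤ 2 * μ := le_of_mul_le_mul_right (hm'.trans hup) hN0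
    linarith

end Pool.Agent.G38
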