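import Pool.Agent.MP_b5e119_nt.G38.Defs

namespace Pool.Agent.G38

open Finset Filter Topology Pool.Agent.G60 Pool.Agent.G42 Pool.Agent.G55
open Pool.Agent.G27 (nu re EX UN)

theorem up_ns {q R g a M : ℕ} {ψ : Ch q} (h0 : g * M = q * R) (hc : a.Coprime M)
    (h : ∀ p : ℕ, p.Prime → re ψ p ≠ -1 → ¬p ^ (1 + R.factorization p) ∣ g * a) : ¬Sp ψ a := by
  rintro ⟨p, hp, h1, h2⟩
  refine h p hp (by omega) ?_
  have c1 : (p ^ R.factorization p).Coprime M :=
    Nat.Coprime.pow_left _ (Nat.Coprime.coprime_dvd_left h2 hc)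
  have c2 : p ^ R.factorization p ∣ g * M := by
    rw [h0]
    exact Dvd.dvd.mul_left (Nat.ordProj_dvd R p) q
  rw [add_comm, pow_succ]
  exact Nat.mul_dvd_mul (c1.dvd_of_dvd_mul_right c2) h2

theorem up_key (hN : NSL_s) {q R a b : ℕ} {ψ : Ch q} (h2 : ψ ^ 2 = 1) (ha : 0 < a) (hb : 0 < b)
    (hab : a + b = q * R)
    (h : ∀ p : ℕ, p.Prime → re ψ p ≠ -1 →
      ¬p ^ (1 + R.factorization p) ∣ a ∧ ¬p ^ (1 + R.factorization p) ∣ b) :
    ((lam a * lam b : ℤ) : ℂ) = ψ (-1) := by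
  obtain ⟨g, a', b', g0, hc, rfl, rfl⟩ :
      ∃ g a' b' : ℕ, 0 < g ∧ a'.Coprime b' ∧ a = g * a' ∧ b = g * b' := by
    obtain ⟨m, n, c, e1, e2⟩ := Nat.exists_coprime a b
    exact ⟨_, m, n, Nat.gcd_pos_of_pos_left b ha, c, e1.trans (mul_comm _ _),
      e2.trans (mul_comm _ _)⟩
  have a0 : 0 < a' := Nat.pos_of_mul_pos_left ha
  have b0 : 0 < b' := Nat.pos_of_mul_pos_left hb
  have R0 : R ≠ 0 := by
    rintro rfl
    omega
  have e0 : g * (a' + b') = q * R := by rw [mul_add, hab]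
  have hg : g ∣ R := by
    refine (Nat.factorization_prime_le_iff_dvd g0.ne' R0).1 fun p hp => ?_
    by_cases hi : re ψ p = -1
    · have c : p.Coprime q := by
        by_contra c
        rw [G27.re_nonunit ψ c] at hi
        omega
      refine (hp.pow_dvd_iff_le_factorization R0).1 ?_
      refine (Nat.Coprime.pow_left _ c).dvd_of_dvd_mul_left ?_
      rw [← e0]
      exact Dvd.dvd.mul_right (Nat.ordProj_dvd g p) _
    · by_contra c
      refine (h p hp hi).1 (Dvd.dvd.mul_right ?_ _)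
      exact (hp.pow_dvd_iff_le_factorization g0.ne').2 (by omega)
  obtain ⟨r, hr⟩ := hg
  have e1 : a' + b' = q * r := by
    refine Nat.eq_of_mul_eq_mul_left g0 ?_
    rw [e0, hr]
    ring
  have ca : a'.Coprime (a' + b') := by simpa using hc
  have cb : b'.Coprime (a' + b') := by simpa using hc.symm
  have ca' : a'.Coprime q := Nat.Coprime.coprime_dvd_right ⟨r, e1⟩ ca
  have cb' : b'.Coprime q := Nat.Coprime.coprime_dvd_right ⟨r, e1⟩ cb
  have la := hN q ψ a' h2 a0 ca' (up_ns e0 ca fun p hp hi => (h p hp hi).1)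
  have lb := hN q ψ b' h2 b0 cb' (up_ns e0 cb fun p hp hi => (h p hp hi).2)
  have z : (b' : ZMod q) = -1 * (a' : ZMod q) := by
    have : ((a' + b' : ℕ) : ZMod q) = 0 := by
      rw [e1]
      simp
    push_cast at this
    linear_combination this
  have s1 : lam g * lam g = 1 := by rcases lam_cases g with c | c <;> rw [c] <;> norm_num
  have s2 : (re ψ a' : ℂ) * (re ψ a' : ℂ) = 1 := by
    rcases G27.re_unit h2 ca' with c | c <;> rw [c] <;> norm_num
  have s3 : lam (g * a') * lam (g * b') = re ψ a' * re ψ b' := by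
    rw [lam_mul g0.ne' a0.ne', lam_mul g0.ne' b0.ne', ← la, ← lb]
    linear_combination (lam a' * lam b') * s1
  rw [s3, Int.cast_mul, G27.re_coe h2 b', z, map_mul, ← G27.re_coe h2 a']
  linear_combination ψ (-1) * s2

theorem up_cnt (N d : ℕ) : (#{a ∈ Icc 1 (N - 1) | d ∣ a ∨ d ∣ N - a} : ℝ) ≤ 2 * (1 / d) * N := by
  have h1 : #{a ∈ Icc 1 (N - 1) | d ∣ a} ≤ N / d := by
    rw [← Nat.Ioc_filter_dvd_card_eq_div]
    refine card_le_card fun a ha => ?_
    simp only [mem_filter, mem_Icc, mem_Ioc] at ha ⊢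
    exact ⟨by omega, ha.2⟩
  have h2 : #{a ∈ Icc 1 (N - 1) | d ∣ N - a} ≤ N / d := by
    rw [← Nat.Ioc_filter_dvd_card_eq_div]
    refine card_le_card_of_injOn (fun a => N - a) (fun a ha => ?_) fun a ha b hb e => ?_
    · simp only [coe_filter, mem_Icc, mem_Ioc, Set.mem_ofPred_eq] at ha ⊢
      exact ⟨by omega, ha.2⟩
    · simp only [coe_filter, mem_Icc, Set.mem_ofPred_eq] at ha hb e
      omega
  have h3 : #{a ∈ Icc 1 (N - 1) | d ∣ a ∨ d ∣ N - a} ≤ N / d + N / d := by
    rw [filter_or]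
    exact (card_union_le _ _).trans (add_le_add h1 h2)
  have h4 : ((N / d : ℕ) : ℝ) ≤ N / d := Nat.cast_div_le
  have h5 := (Nat.cast_le (α := ℝ)).2 h3
  push_cast at h5
  have h6 : 2 * (1 / (d : ℝ)) * N = N / d + N / d := by ring
  linarith

theorem up_row (hN : NSL_s) : UP_s := by
  intro N q ψ e e' h0 hq h2 he he' hs
  obtain ⟨R, hR⟩ := hq
  have q0 : 0 < q := Nat.pos_of_mul_pos_right (hR ▸ h0)
  have hd : N / q = R := by rw [hR, Nat.mul_div_cancel_left _ q0]
  have hsub : {a ∈ Icc 1 (N - 1) | lam a = e ∧ lam (N - a) = e'} ⊆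
      ({p ∈ Icc 1 N | p.Prime ∧ re ψ p ≠ -1} : Finset ℕ).biUnion
        fun p => {a ∈ Icc 1 (N - 1) | PW N q p ∣ a ∨ PW N q p ∣ N - a} := by
    intro a ha
    obtain ⟨a1, a2, a3⟩ := mem_filter.1 ha
    have a4 := mem_Icc.1 a1
    by_contra hc
    have k := up_key hN (R := R) (a := a) (b := N - a) h2 (by omega) (by omega) (by omega)
      fun p hp hi => by
        rw [← not_or]
        intro hor
        refine hc (mem_biUnion.2 ⟨p, mem_filter.2 ⟨mem_Icc.2 ⟨hp.pos, ?_⟩, hp, hi⟩,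
          mem_filter.2 ⟨a1, by unfold PW; rwa [hd]⟩⟩)
        have d1 : p ∣ p ^ (1 + R.factorization p) := dvd_pow_self p (by omega)
        rcases hor with c | c
        · have := Nat.le_of_dvd (by omega) (d1.trans c)
          omega
        · have := Nat.le_of_dvd (by omega) (d1.trans c)
          omega
    rw [a2, a3, hs, ← Int.cast_neg, Int.cast_inj] at k
    rcases he with rfl | rfl <;> rcases he' with rfl | rfl <;> omega
  have h1 := (Nat.cast_le (α := ℝ)).2 ((card_le_card hsub).trans card_biUnion_le)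
  unfold cnt TA
  refine h1.trans ?_
  rw [Nat.cast_sum, mul_sum, sum_mul]
  exact sum_le_sum fun p _ => up_cnt N _

end Pool.Agent.G38
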