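import Pool.Agent.MP_b5e119_nt.G38.Defs

namespace Pool.Agent.G38

open Finset Filter Topology Pool.Agent.G60 Pool.Agent.G42 Pool.Agent.G55
open Pool.Agent.G27 (nu re EX UN)

lemma zlow_tel (M : ℕ) :
    ∏ k ∈ Icc 2 (M + 1), (1 - ((k : ℝ)⁻¹) ^ 2) = ((M : ℝ) + 2) / (2 * ((M : ℝ) + 1)) := by
  induction M with
  | zero => simp
  | succ M ih =>
    rw [Finset.prod_Icc_succ_top (by omega), ih]
    push_cast
    field_simp
    ring

lemma zlow_half (N : ℕ) : (1 / 2 : ℝ) ≤ ∏ p ∈ N.primeFactors, (1 - ((p : ℝ)⁻¹) ^ 2) := by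
  have h1 : N.primeFactors ⊆ Icc 2 (N + 1) := by
    intro p hp
    have h2 := (Nat.prime_of_mem_primeFactors hp).two_le
    have h3 := Nat.le_of_mem_primeFactors hp
    exact mem_Icc.2 ⟨h2, by omega⟩
  have h0 : (0 : ℝ) ≤ N := Nat.cast_nonneg N
  calc (1 / 2 : ℝ) ≤ ((N : ℝ) + 2) / (2 * ((N : ℝ) + 1)) := by
        rw [div_le_div_iff₀ (by norm_num) (by positivity)]
        linarith
    _ = ∏ k ∈ Icc 2 (N + 1), (1 - ((k : ℝ)⁻¹) ^ 2) := (zlow_tel N).symm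
    _ ≤ _ := by
        refine Finset.prod_le_prod_of_subset_of_le_one h1 ?_ ?_
        · intro k hk
          have h2 : (1 : ℝ) ≤ k := by exact_mod_cast (show 1 ≤ k by have := (mem_Icc.1 hk).1; omega)
          have h3 : (k : ℝ)⁻¹ ≤ 1 := inv_le_one_of_one_le₀ h2
          have h4 : 0 ≤ (k : ℝ)⁻¹ := by positivity
          nlinarith
        · intro k _ _
          have := sq_nonneg ((k : ℝ)⁻¹)
          linarith

lemma zlow_phi (N : ℕ) (hN : 0 < N) :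
    (N : ℝ) / N.totient ≤ 2 * ∑ S ∈ N.primeFactors.powerset, ∏ p ∈ S, (p : ℝ)⁻¹ := by
  have hφ : (0 : ℝ) < N.totient := by exact_mod_cast Nat.totient_pos.2 hN
  have h1 : (N.totient : ℝ) = N * ∏ p ∈ N.primeFactors, (1 - (p : ℝ)⁻¹) := by
    have h := congrArg (fun x : ℚ => (x : ℝ)) (Nat.totient_eq_mul_prod_factors N)
    simpa using h
  rw [← Finset.prod_one_add, div_le_iff₀ hφ, h1]
  have h2 : (∏ p ∈ N.primeFactors, (1 + (p : ℝ)⁻¹)) * ∏ p ∈ N.primeFactors, (1 - (p : ℝ)⁻¹) =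
      ∏ p ∈ N.primeFactors, (1 - ((p : ℝ)⁻¹) ^ 2) := by
    rw [← Finset.prod_mul_distrib]
    exact Finset.prod_congr rfl fun p _ => by ring
  have h3 := zlow_half N
  have h0 : (0 : ℝ) ≤ N := Nat.cast_nonneg N
  calc (N : ℝ) = 2 * N * (1 / 2) := by ring
    _ ≤ 2 * N * ∏ p ∈ N.primeFactors, (1 - ((p : ℝ)⁻¹) ^ 2) :=
        mul_le_mul_of_nonneg_left h3 (by positivity)
    _ = _ := by rw [← h2]; ring

lemma zlow_cop {N : ℕ} (χ : Ch N) (n : ℕ) (h : re χ n ≠ 0) : n.Coprime N := by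
  by_contra hc
  apply h
  have h0 : χ (n : ZMod N) = 0 :=
    χ.map_nonunit (fun hu => hc ((ZMod.isUnit_iff_coprime n N).1 hu))
  unfold re
  rw [h0]
  simp

lemma zlow_rx {N : ℕ} (χ : Ch N) (p d : ℕ) (hp : p.Prime) (hr : re χ p = 1) (hd : d ∣ N)
    (hd0 : 0 < d) : rx χ (p * d) = 2 := by
  have hsub : ({1, p} : Finset ℕ) ⊆ (p * d).divisors := by
    intro e he
    have hne : p * d ≠ 0 := (Nat.mul_pos hp.pos hd0).ne'
    rcases mem_insert.1 he with h | h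
    · rw [h]; exact Nat.one_mem_divisors.2 hne
    · rw [mem_singleton.1 h]; exact Nat.mem_divisors.2 ⟨Dvd.intro _ rfl, hne⟩
  have h1 : re χ 1 = 1 := by unfold re; simp
  unfold rx
  rw [← Finset.sum_subset hsub, Finset.sum_pair hp.one_lt.ne, h1, hr]
  · norm_num
  · intro e he hn
    by_contra h
    have hc : e.Coprime N := zlow_cop χ e (fun h0 => h (by rw [h0]; simp))
    have hcd : e.Coprime d := Nat.Coprime.coprime_dvd_right hd hc
    have hep : e ∣ p := hcd.dvd_of_dvd_mul_right (Nat.dvd_of_mem_divisors he)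
    rcases (Nat.dvd_prime hp).1 hep with h2 | h2
    · exact hn (by rw [h2]; simp)
    · exact hn (by rw [h2]; simp)

theorem zlow_row (hL : LIDX_s) : ZLOW_s := by
  intro N _ χ y hχ hy
  have hN : 0 < N := Nat.pos_of_ne_zero (NeZero.ne N)
  have hrx := (hL N χ hχ).1
  have hyN : y ≤ N ^ 2 := hy.trans (Nat.le_self_pow (by norm_num) N)
  have hZ : ZX χ (N ^ 2) - ZX χ y = ∑ n ∈ Ioc y (N ^ 2), rx χ n / n := by
    unfold ZX
    have h := Finset.sum_Ioc_consecutive (fun n : ℕ => rx χ n / (n : ℝ)) (Nat.zero_le y) hyN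
    have e1 : ∀ x : ℕ, Icc 1 x = Ioc 0 x := fun x => by ext a; simp only [mem_Icc, mem_Ioc]; omega
    rw [e1, e1, ← h]
    ring
  set P : Finset ℕ := {p ∈ Ioc y N | p.Prime ∧ re χ p = 1} with hP
  have hdv : ∀ S ∈ N.primeFactors.powerset, (∏ q ∈ S, q) ∣ N := fun S hS =>
    (Finset.prod_dvd_prod_of_subset _ _ _ (mem_powerset.1 hS)).trans (Nat.prod_primeFactors_dvd N)
  have hpf : ∀ S ∈ N.primeFactors.powerset, (∏ q ∈ S, q).primeFactors = S := fun S hS =>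
    Nat.primeFactors_prod fun q hq => Nat.prime_of_mem_primeFactors (mem_powerset.1 hS hq)
  have hinj : Set.InjOn (fun z : ℕ × Finset ℕ => z.1 * ∏ q ∈ z.2, q)
      (↑(P ×ˢ N.primeFactors.powerset) : Set (ℕ × Finset ℕ)) := by
    rintro ⟨p, S⟩ h1 ⟨p', S'⟩ h2 h
    obtain ⟨hp, hS⟩ := mem_product.1 (mem_coe.1 h1)
    obtain ⟨hp', hS'⟩ := mem_product.1 (mem_coe.1 h2)
    obtain ⟨_, hpp, hpr⟩ := mem_filter.1 hp
    obtain ⟨_, hpp', _⟩ := mem_filter.1 hp'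
    dsimp only at h hS hS' hpp hpp' hpr
    have hc : p.Coprime N := zlow_cop χ p (by rw [hpr]; norm_num)
    have hc' : p.Coprime (∏ q ∈ S', q) := Nat.Coprime.coprime_dvd_right (hdv S' hS') hc
    have h3 : p ∣ p' := hc'.dvd_of_dvd_mul_right (h ▸ Dvd.intro _ rfl)
    have h4 : p = p' := (Nat.prime_dvd_prime_iff_eq hpp hpp').1 h3
    subst h4
    have h5 := Nat.eq_of_mul_eq_mul_left hpp.pos h
    have h6 : S = S' := by rw [← hpf S hS, ← hpf S' hS', h5]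
    rw [h6]
  have hP0 : 0 ≤ ∑ p ∈ P, 1 / (p : ℝ) := sum_nonneg fun p _ => by positivity
  rw [hZ]
  calc (∑ p ∈ P, 1 / (p : ℝ)) * N / N.totient = (∑ p ∈ P, 1 / (p : ℝ)) * ((N : ℝ) / N.totient) :=
        mul_div_assoc _ _ _
    _ ≤ (∑ p ∈ P, 1 / (p : ℝ)) * (2 * ∑ S ∈ N.primeFactors.powerset, ∏ p ∈ S, (p : ℝ)⁻¹) :=
        mul_le_mul_of_nonneg_left (zlow_phi N hN) hP0
    _ = ∑ z ∈ P ×ˢ N.primeFactors.powerset,
          rx χ (z.1 * ∏ q ∈ z.2, q) / ((z.1 * ∏ q ∈ z.2, q : ℕ) : ℝ) := by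
        rw [Finset.sum_product, Finset.sum_mul]
        refine sum_congr rfl fun p hp => ?_
        obtain ⟨_, hpp, hpr⟩ := mem_filter.1 hp
        rw [Finset.mul_sum, Finset.mul_sum]
        refine sum_congr rfl fun S hS => ?_
        dsimp only
        rw [zlow_rx χ p _ hpp hpr (hdv S hS) (Nat.pos_of_dvd_of_pos (hdv S hS) hN),
          Finset.prod_inv_distrib]
        push_cast
        ring
    _ = ∑ n ∈ (P ×ˢ N.primeFactors.powerset).image (fun z : ℕ × Finset ℕ => z.1 * ∏ q ∈ z.2, q),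
          rx χ n / n := by rw [Finset.sum_image hinj]
    _ ≤ _ := by
        refine Finset.sum_le_sum_of_subset_of_nonneg ?_ fun n _ _ =>
          div_nonneg (hrx n) (Nat.cast_nonneg n)
        intro n hn
        obtain ⟨⟨p, S⟩, h1, rfl⟩ := mem_image.1 hn
        obtain ⟨hp, hS⟩ := mem_product.1 h1
        obtain ⟨hp1, _⟩ := mem_filter.1 hp
        obtain ⟨h2, h3⟩ := mem_Ioc.1 hp1
        dsimp only at h2 h3 hS ⊢
        have h4 := Nat.pos_of_dvd_of_pos (hdv S hS) hN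
        have h5 := Nat.le_of_dvd hN (hdv S hS)
        refine mem_Ioc.2 ⟨lt_of_lt_of_le h2 (Nat.le_mul_of_pos_right p h4), ?_⟩
        rw [sq]
        exact Nat.mul_le_mul h3 h5

end Pool.Agent.G38
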