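import Pool.Agent.MP_b5e119_nt.G55.Main
import Pool.Agent.MP_b5e119_nt.G38.ANC
import Pool.Agent.MP_b5e119_nt.G38.BIG
import Pool.Agent.MP_b5e119_nt.G38.BON
import Pool.Agent.MP_b5e119_nt.G38.CLP
import Pool.Agent.MP_b5e119_nt.G38.DIRP
import Pool.Agent.MP_b5e119_nt.G38.EVA
import Pool.Agent.MP_b5e119_nt.G38.EVT
import Pool.Agent.MP_b5e119_nt.G38.LIFT
import Pool.Agent.MP_b5e119_nt.G38.LOW
import Pool.Agent.MP_b5e119_nt.G38.LVP
import Pool.Agent.MP_b5e119_nt.G38.ORD
import Pool.Agent.MP_b5e119_nt.G38.TAIL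
import Pool.Agent.MP_b5e119_nt.G38.UP
import Pool.Agent.MP_b5e119_nt.G38.ZLOW

/-! Assembly of the exact order of the count. -/

namespace Pool.Agent.G38

open Pool.Agent.G60 Pool.Agent.G42 Pool.Agent.G55

theorem invm [Sg] : INVM_s :=
  invm_row odx G1A.feww (lev3_row G1A.lev1_row G27.tau_row) enda
    (npr_row (lio_row sq_row hyp_row lio1_row) G27.tau_row G27.phi) stra_row

theorem slg : SLG_s := slg_row smid (sig_row smid scs gud brg_row) gud

theorem dirp : DIRP_s :=
  dirp_row (dira_row (G27.fin1g_row G27.tau_row G27.phi G27.uni_row G27.burgg) siza dya_row)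
    (dirb_row unu_row G27.tau_row G27.phi) badu nsl_row

theorem evt [Sg] : EVT_s := evt_row (eva_row invm clp_row) (lvp_row invm slg dirp clp_row) clp_row

theorem big : BIG_s :=
  big_row (rasx_row (raax_row hyp_row G27.burgg G60.tail_row)) lift_row (zlow_row lidx_row) G27.phi

theorem low : LOW_s :=
  low_row (fun i => @invm i) (fun i => @evt i) (anc_row repa) bon_row
    (G38.tail_row slg mle big cheb_row)

theorem ord : ORD_s := ord_row low (up_row nsl_row) tops

end Pool.Agent.G38
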