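import Pool.Agent.MP_b5e119_nt.G38.Defs
import Pool.Agent.MP_b5e119_nt.G55.DIRC
import Pool.Agent.MP_b5e119_nt.G55.ONE

/-! Row TAIL of campaign h38o. -/

namespace Pool.Agent.G38

open Finset Filter Topology Pool.Agent.G60 Pool.Agent.G42 Pool.Agent.G55 DirichletCharacter
open Pool.Agent.G27 (nu re EX UN)

theorem tail_re {N M : ℕ} (h : M ∣ N) (χ : Ch M) {n : ℕ} (hc : n.Coprime N) :
    re (changeLevel h χ) n = re χ n := by
  have e := changeLevel_eq_cast_of_dvd' χ h (a := (n : ℤ)) (Nat.isCoprime_iff_coprime.2 hc)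
  rw [Int.cast_natCast, Int.cast_natCast] at e
  unfold G27.re
  rw [e]

theorem tail_pw {N q p : ℕ} (hq : q ∣ N) (hp : ¬p ∣ N) : PW N q p = p := by
  unfold PW
  rw [Nat.factorization_eq_zero_of_not_dvd fun h => hp (h.trans (Nat.div_dvd_of_dvd hq)), add_zero,
    pow_one]

theorem tail_y {N M : ℕ} (hM : 1 ≤ M) (h9 : N ^ 999 ≤ M ^ 1000) :
    (YN N : ℝ) ≤ (M : ℝ) ^ (0.662 : ℝ) := by
  have hN0 : (0 : ℝ) ≤ N := Nat.cast_nonneg _
  have hM1 : (1 : ℝ) ≤ M := by exact_mod_cast hM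
  refine (Nat.floor_le (by positivity) : (YN N : ℝ) ≤ (N : ℝ) ^ (0.333 : ℝ)).trans ?_
  have b1 : (N : ℝ) ^ ((999 : ℕ) : ℝ) ≤ (M : ℝ) ^ ((1000 : ℕ) : ℝ) := by
    rw [Real.rpow_natCast, Real.rpow_natCast]
    exact_mod_cast h9
  have b2 := Real.rpow_le_rpow (by positivity) b1 (by norm_num : (0 : ℝ) ≤ 1 / 3000)
  rw [← Real.rpow_mul hN0, ← Real.rpow_mul (by linarith)] at b2
  calc (N : ℝ) ^ (0.333 : ℝ) = (N : ℝ) ^ (((999 : ℕ) : ℝ) * (1 / 3000)) := by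
        congr 1
        norm_num
    _ ≤ _ := b2
    _ ≤ _ := Real.rpow_le_rpow_of_exponent_le hM1 (by norm_num)

theorem tail_row (hS : SLG_s) (hM : MLE_s) (hB : BIG_s) (hC : CHEB_s) : TAIL_s := by
  obtain ⟨η, hη, N₂, hS⟩ := hS (1 / 4) 10 (by norm_num) (by norm_num)
  obtain ⟨C, N₃, hC0, hM⟩ := hM
  obtain ⟨D, N₄, hD0, hB⟩ := hB
  refine ⟨η, 1 + D * C, (N₂ + 1) ^ 2 + N₃ + N₄, hη, le_add_of_nonneg_right (by positivity),
    fun N M q _ χ ψ σ hN h h9 h2 h1 _ hσ hE hq hre => ?_⟩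
  have hN1 : 1 ≤ N := le_trans (Nat.one_le_pow 2 (N₂ + 1) (by omega)) (by omega)
  have : NeZero N := ⟨by omega⟩
  have a1 : N ≤ M ^ 2 := by
    refine (Nat.pow_le_pow_iff_left (by norm_num : 999 ≠ 0)).1 (h9.trans ?_)
    rw [← pow_mul]
    exact Nat.pow_le_pow_right (NeZero.pos M) (by norm_num)
  have hM' : N₂ + 1 ≤ M := (Nat.pow_le_pow_iff_left two_ne_zero).1 (by omega)
  have hN1' : (1 : ℝ) ≤ N := by exact_mod_cast hN1
  have y0 : 1 ≤ YN N := Nat.le_floor (by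
    rw [Nat.cast_one]
    exact Real.one_le_rpow hN1' (by norm_num))
  have yN : YN N ≤ N := Nat.floor_le_of_le (by
    have := Real.rpow_le_rpow_of_exponent_le hN1' (by norm_num : (0.333 : ℝ) ≤ 1)
    rwa [Real.rpow_one] at this)
  have y1 : (N : ℝ) ^ (0.333 : ℝ) ≤ YN N + 1 := (Nat.lt_floor_add_one _).le
  have x2 : changeLevel h χ ^ 2 = 1 := by rw [← map_pow, h2, map_one]
  have x1 : changeLevel h χ ≠ 1 := fun c => h1 ((changeLevel_eq_one_iff h).1 c)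
  have xr : ∀ n : ℕ, n.Coprime N → re (changeLevel h χ) n = re ψ n := fun n hn =>
    (tail_re h χ hn).trans (hre n (hn.coprime_dvd_right h))
  have c0 : SL (changeLevel h χ) (YN N) ≤ 1 / 4 := (one_lift h χ _).trans
    ((dirc_mono χ (dirc_le (by omega) le_rfl (tail_y (by omega) h9))).trans
      (hS M χ σ (by omega) h2 hσ hE))
  have c4 := hM N (changeLevel h χ) (YN N) (by omega) x2 x1 y1 c0
  have c5 := hB N (changeLevel h χ) (by omega) x2 x1
  generalize changeLevel h χ = X at x2 x1 xr c0 c4 c5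
  have c6 : SL X (YN N) ≤ ∑ p ∈ SS N q ψ, 1 / (PW N q p : ℝ) := by
    have k : ∀ p ∈ {p ∈ Icc 1 (YN N) | p.Prime ∧ re X p = 1}, ¬p ∣ N := fun p hp hd => by
      obtain ⟨_, h4, h5⟩ := mem_filter.1 hp
      rw [G27.re_nonunit _ fun hc => (h4.coprime_iff_not_dvd.1 hc) hd] at h5
      exact zero_ne_one h5
    unfold SL
    rw [sum_congr rfl fun (p : ℕ) hp => show 1 / (p : ℝ) = 1 / (PW N q p : ℝ) by
      rw [tail_pw (hq.trans h) (k p hp)]]
    refine sum_le_sum_of_subset_of_nonneg (fun p hp => ?_) fun _ _ _ => by positivity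
    obtain ⟨h3, h4, h5⟩ := mem_filter.1 hp
    refine mem_filter.2 ⟨mem_Icc.2 ⟨h4.pos, (mem_Icc.1 h3).2.trans yN⟩, h4, ?_, ?_⟩
    · rw [← xr p (h4.coprime_iff_not_dvd.2 (k p hp)), h5]
      norm_num
    · rw [tail_pw (hq.trans h) (k p hp)]
      exact (mem_Icc.1 h3).2
  have c7 : TA N q ψ ≤ ∑ p ∈ SS N q ψ, 1 / (PW N q p : ℝ) +
      (∑ p ∈ Ioc (YN N) N with (p.Prime ∧ re X p = 1), 1 / (p : ℝ) +
        ∑ _p ∈ N.divisors with _p.Prime, 1 / (YN N : ℝ)) := by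
    unfold TA SS
    have s1 : ∀ (s : Finset ℕ) (f : ℕ → ℝ), s ⊆ Icc 1 N →
        ∑ p ∈ s, f p = ∑ p ∈ Icc 1 N, if p ∈ s then f p else 0 := fun s f hs => by
      rw [sum_ite_mem, inter_eq_right.2 hs]
    rw [s1 {p ∈ Ioc (YN N) N | p.Prime ∧ re X p = 1} _ (fun p hp => mem_Icc.2
        ⟨(mem_filter.1 hp).2.1.pos, (mem_Ioc.1 (mem_filter.1 hp).1).2⟩),
      s1 {p ∈ N.divisors | p.Prime} _ (fun p hp => mem_Icc.2
        ⟨(mem_filter.1 hp).2.pos, Nat.divisor_le (mem_filter.1 hp).1⟩),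
      sum_filter, sum_filter, ← sum_add_distrib, ← sum_add_distrib]
    refine sum_le_sum fun p hp => ?_
    have n1 : (0 : ℝ) ≤ if p.Prime ∧ re ψ p ≠ -1 ∧ PW N q p ≤ YN N then 1 / (PW N q p : ℝ) else 0 := by
      split_ifs <;> positivity
    have n2 : (0 : ℝ) ≤ if p ∈ {p ∈ Ioc (YN N) N | p.Prime ∧ re X p = 1} then 1 / (p : ℝ) else 0 := by
      split_ifs <;> positivity
    have n3 : (0 : ℝ) ≤ if p ∈ {p ∈ N.divisors | p.Prime} then 1 / (YN N : ℝ) else 0 := by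
      split_ifs <;> positivity
    by_cases h3 : p.Prime ∧ re ψ p ≠ -1
    · rw [if_pos h3]
      by_cases h4 : PW N q p ≤ YN N
      · rw [if_pos ⟨h3.1, h3.2, h4⟩]
        linarith
      · by_cases h5 : p ∣ N
        · rw [if_pos (mem_filter.2 ⟨Nat.mem_divisors.2 ⟨h5, by omega⟩, h3.1⟩)]
          have : 1 / (PW N q p : ℝ) ≤ 1 / (YN N : ℝ) :=
            one_div_le_one_div_of_le (by exact_mod_cast y0) (by exact_mod_cast (not_le.1 h4).le)
          linarith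
        · have h6 := h3.1.coprime_iff_not_dvd.2 h5
          have h7 : re X p = 1 := (G27.re_unit x2 h6).resolve_right (xr p h6 ▸ h3.2)
          rw [tail_pw (hq.trans h) h5] at h4 n1 ⊢
          rw [if_pos (mem_filter.2 ⟨mem_Ioc.2 ⟨not_le.1 h4, (mem_Icc.1 hp).2⟩, h3.1, h7⟩)]
          linarith
    · rw [if_neg h3]
      linarith
  have c8 : ∑ _p ∈ N.divisors with _p.Prime, 1 / (YN N : ℝ) ≤ (Nat.log 2 N : ℝ) / YN N := by
    rw [sum_const, nsmul_eq_mul, mul_one_div]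
    gcongr
    exact_mod_cast hC.2.2 N hN1
  have c9 := mul_le_mul_of_nonneg_left (c4.trans (mul_le_mul_of_nonneg_left c6 hC0.le)) hD0.le
  nlinarith

end Pool.Agent.G38
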